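import Mathlib

open Set Filter Topology Metric

namespace Pool.Agent.H.MP_19acf5_gt

universe u

/-- cut wire lemma in a compact Hausdorff space -/
theorem cutwire0 {P : Type*} [TopologicalSpace P] [T2Space P] [CompactSpace P] {A B : Set P}
    (hA : IsClosed A) (hB : IsClosed B) (h : ∀ a ∈ A, ∀ b ∈ B, b ∉ connectedComponent a) :
    ∃ S : Set P, IsClopen S ∧ A ⊆ S ∧ Disjoint S B := by
  have h1 : ∀ a ∈ A, ∃ S : Set P, IsClopen S ∧ a ∈ S ∧ Disjoint S B := by
    intro a ha
    have hc := connectedComponent_eq_iInter_isClopen a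
    have hcov : B ⊆ ⋃ s : {s : Set P // IsClopen s ∧ a ∈ s}, (s : Set P)ᶜ := by
      intro b hb
      have := h a ha b hb
      rw [hc, mem_iInter] at this
      push Not at this
      obtain ⟨s, hs⟩ := this
      exact mem_iUnion.2 ⟨s, hs⟩
    obtain ⟨t, ht⟩ := hB.isCompact.elim_finite_subcover _
      (fun s : {s : Set P // IsClopen s ∧ a ∈ s} => s.2.1.compl.isOpen) hcov
    refine ⟨⋂ s ∈ t, (s : Set P), isClopen_biInter_finset (fun s _ => s.2.1), ?_, ?_⟩
    · exact mem_iInter₂.2 fun s _ => s.2.2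
    · rw [Set.disjoint_left]
      intro x hx hxB
      obtain ⟨s, hs, hxs⟩ := mem_iUnion₂.1 (ht hxB)
      exact hxs (mem_iInter₂.1 hx s hs)
  choose! S hS using h1
  obtain ⟨t, htA, htf, ht⟩ := hA.isCompact.elim_finite_subcover_image
    (fun a ha => (hS a ha).1.isOpen) (fun a ha => mem_iUnion₂.2 ⟨a, ha, (hS a ha).2.1⟩)
  refine ⟨⋃ a ∈ t, S a, htf.isClopen_biUnion (fun a ha => (hS a (htA ha)).1), ht, ?_⟩
  rw [Set.disjoint_left]
  intro x hx hxB
  obtain ⟨a, ha, hxa⟩ := mem_iUnion₂.1 hx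
  exact Set.disjoint_left.1 (hS a (htA ha)).2.2 hxa hxB

/-- cut wire lemma for a compact subset -/
theorem cutwire {P : Type*} [TopologicalSpace P] [T2Space P] {K A B : Set P} (hK : IsCompact K)
    (hA : IsClosed A) (hB : IsClosed B)
    (h : ∀ a ∈ A ∩ K, ∀ b ∈ B ∩ K, b ∉ connectedComponentIn K a) :
    ∃ S T : Set P, IsClosed S ∧ IsClosed T ∧ Disjoint S T ∧ S ∪ T = K ∧ A ∩ K ⊆ S ∧ B ∩ K ⊆ T := by
  haveI : CompactSpace K := isCompact_iff_compactSpace.1 hK
  obtain ⟨S, hS, hAS, hSB⟩ := cutwire0 (P := K) (A := Subtype.val ⁻¹' A) (B := Subtype.val ⁻¹' B)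
    (hA.preimage continuous_subtype_val) (hB.preimage continuous_subtype_val) (by
      intro a ha b hb hab
      apply h a ⟨ha, a.2⟩ b ⟨hb, b.2⟩
      rw [connectedComponentIn_eq_image a.2]
      exact ⟨b, hab, rfl⟩)
  have hcl := hK.isClosed.isClosedEmbedding_subtypeVal.isClosedMap
  refine ⟨Subtype.val '' S, Subtype.val '' Sᶜ, hcl _ hS.isClosed, hcl _ hS.compl.isClosed, ?_, ?_, ?_, ?_⟩
  · exact (Set.disjoint_image_iff Subtype.val_injective).2 disjoint_compl_right
  · rw [← image_union, union_compl_self, image_univ, Subtype.range_coe]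
  · rintro a ⟨ha, haK⟩
    exact ⟨⟨a, haK⟩, hAS ha, rfl⟩
  · rintro b ⟨hb, hbK⟩
    exact ⟨⟨b, hbK⟩, fun hs => Set.disjoint_left.1 hSB hs hb, rfl⟩

theorem sub_of_closed {P : Type*} [TopologicalSpace P] {C S T : Set P} (hC : IsPreconnected C)
    (hS : IsClosed S) (hT : IsClosed T) (hd : Disjoint S T) (h : C ⊆ S ∪ T) : C ⊆ S ∨ C ⊆ T :=
  (isPreconnected_iff_subset_of_disjoint_closed.1 hC) S T hS hT h (by
    rw [Set.disjoint_iff_inter_eq_empty.1 hd, inter_empty])

/-- a proper subcontinuum with interior gives a decomposition -/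
theorem decomp {P : Type*} [TopologicalSpace P] [T2Space P] {R A O : Set P} (hR : IsCompact R)
    (hRc : IsConnected R) (hA : IsCompact A) (hAc : IsConnected A) (hAR : A ⊂ R) (hO : IsOpen O)
    (hne : (O ∩ R).Nonempty) (hOA : O ∩ R ⊆ A) :
    ∃ A B : Set P, IsCompact A ∧ IsConnected A ∧ A ⊂ R ∧ IsCompact B ∧ IsConnected B ∧ B ⊂ R ∧
      A ∪ B = R := by
  obtain ⟨o, hoO, hoR⟩ := hne
  have hDsub : closure (R \ A) ⊆ R := closure_minimal diff_subset hR.isClosed
  have hoD : o ∉ closure (R \ A) := by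
    intro h
    obtain ⟨z, hzO, hzR, hzA⟩ := _root_.mem_closure_iff.1 h O hO hoO
    exact hzA (hOA ⟨hzO, hzR⟩)
  have hDne : (R \ A).Nonempty := nonempty_of_ssubset hAR
  by_cases hD : IsPreconnected (closure (R \ A))
  · refine ⟨A, closure (R \ A), hA, hAc, hAR, hR.of_isClosed_subset isClosed_closure hDsub,
      ⟨hDne.mono subset_closure, hD⟩, ⟨hDsub, fun h => hoD (h hoR)⟩, ?_⟩
    apply Subset.antisymm (union_subset hAR.1 hDsub)
    intro x hx
    by_cases hxA : x ∈ A
    · exact Or.inl hxA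
    · exact Or.inr (subset_closure ⟨hx, hxA⟩)
  · rw [isPreconnected_iff_subset_of_disjoint_closed] at hD
    push Not at hD
    obtain ⟨S, T, hS, hT, hcov, hdis, hnS, hnT⟩ := hD
    set D := closure (R \ A) with hDdef
    have hDc : IsClosed D := isClosed_closure
    have key : ∀ S T : Set P, IsClosed S → IsClosed T → D ⊆ S ∪ T → D ∩ (S ∩ T) = ∅ → ¬ D ⊆ S →
        IsCompact (A ∪ D ∩ S) ∧ IsConnected (A ∪ D ∩ S) ∧ A ∪ D ∩ S ⊂ R := by
      intro S T hS hT hcov hdis hnS
      refine ⟨hA.union (hR.of_isClosed_subset (hDc.inter hS) (inter_subset_left.trans hDsub)),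
        ⟨hAc.nonempty.mono subset_union_left, ?_⟩, union_subset hAR.1 (inter_subset_left.trans hDsub), ?_⟩
      · rw [isPreconnected_iff_subset_of_disjoint_closed]
        intro U V hU hV hUV hd
        have aux : ∀ U V : Set P, IsClosed U → IsClosed V → A ∪ D ∩ S ⊆ U ∪ V →
            (A ∪ D ∩ S) ∩ (U ∩ V) = ∅ → A ⊆ U → A ∪ D ∩ S ⊆ U := by
          intro U V hU hV hUV hd hAU
          have h1 : R ⊆ (A ∪ D ∩ S ∩ U ∪ D ∩ T) ∪ (D ∩ S ∩ V) := by
            intro x hx
            by_cases hxA : x ∈ A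
            · exact Or.inl (Or.inl (Or.inl hxA))
            · have hxD : x ∈ D := subset_closure ⟨hx, hxA⟩
              rcases hcov hxD with h | h
              · rcases hUV (Or.inr ⟨hxD, h⟩) with h' | h'
                · exact Or.inl (Or.inl (Or.inr ⟨⟨hxD, h⟩, h'⟩))
                · exact Or.inr ⟨⟨hxD, h⟩, h'⟩
              · exact Or.inl (Or.inr ⟨hxD, h⟩)
          have h2 : Disjoint (A ∪ D ∩ S ∩ U ∪ D ∩ T) (D ∩ S ∩ V) := by
            rw [Set.disjoint_left]
            rintro x (((hx | hx)) | hx) ⟨⟨hxD, hxS⟩, hxV⟩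
            · have : x ∈ (A ∪ D ∩ S) ∩ (U ∩ V) := ⟨Or.inl hx, hAU hx, hxV⟩
              rw [hd] at this; exact this
            · have : x ∈ (A ∪ D ∩ S) ∩ (U ∩ V) := ⟨Or.inr hx.1, hx.2, hxV⟩
              rw [hd] at this; exact this
            · have : x ∈ D ∩ (S ∩ T) := ⟨hxD, hxS, hx.2⟩
              rw [hdis] at this; exact this
          rcases sub_of_closed hRc.isPreconnected ((hA.isClosed.union ((hDc.inter hS).inter hU)).union
            (hDc.inter hT)) ((hDc.inter hS).inter hV) h2 h1 with h | h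
          · rintro x (hx | hx)
            · exact hAU hx
            · rcases hUV (Or.inr hx) with h' | h'
              · exact h'
              · exact absurd ⟨hx, h'⟩ (Set.disjoint_left.1 h2 (h (hDsub hx.1)))
          · obtain ⟨a, ha⟩ := hAc.nonempty
            exact absurd (h (hAR.1 ha)) (Set.disjoint_left.1 h2 (Or.inl (Or.inl ha)))
        have hAUV : A ⊆ U ∨ A ⊆ V := by
          apply (isPreconnected_iff_subset_of_disjoint_closed.1 hAc.isPreconnected) U V hU hV
            (subset_union_left.trans hUV)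
          apply eq_empty_of_subset_empty
          rw [← hd]
          exact inter_subset_inter_left _ subset_union_left
        rcases hAUV with h | h
        · exact Or.inl (aux U V hU hV hUV hd h)
        · exact Or.inr (aux V U hV hU (by rwa [union_comm V]) (by rwa [inter_comm V]) h)
      · intro h
        apply hnS
        apply closure_minimal _ hS
        rintro x ⟨hxR, hxA⟩
        rcases h hxR with h' | h'
        · exact absurd h' hxA
        · exact h'.2
    obtain ⟨a1, a2, a3⟩ := key S T hS hT hcov hdis hnS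
    obtain ⟨b1, b2, b3⟩ := key T S hT hS (by rwa [union_comm]) (by rwa [inter_comm T]) hnT
    refine ⟨_, _, a1, a2, a3, b1, b2, b3, Subset.antisymm (union_subset a3.1 b3.1) ?_⟩
    intro x hx
    by_cases hxA : x ∈ A
    · exact Or.inl (Or.inl hxA)
    · have hxD : x ∈ D := subset_closure ⟨hx, hxA⟩
      rcases hcov hxD with h | h
      · exact Or.inl (Or.inr ⟨hxD, h⟩)
      · exact Or.inr (Or.inr ⟨hxD, h⟩)

section beta
variable {X : Type u} [MetricSpace X]

abbrev Y (p : X) := {x : X // x ≠ p}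
abbrev un (p : X) : Y p → StoneCech (Y p) := stoneCechUnit
def rem (p : X) : Set (StoneCech (Y p)) := (range (un p))ᶜ
def cl (p : X) (A : Set X) : Set (StoneCech (Y p)) := closure (un p '' (Subtype.val ⁻¹' A))
def Acc (p : X) (A : Set X) : Prop := p ∈ closure (A \ {p})
def CY (p : X) (A : Set X) : Prop := IsClosed (insert p A)

variable {p : X}

theorem CY.pre {A : Set X} (h : CY p A) : IsClosed (Subtype.val ⁻¹' A : Set (Y p)) := by
  have : (Subtype.val ⁻¹' A : Set (Y p)) = Subtype.val ⁻¹' (insert p A) := by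
    ext x; simp [x.2]
  rw [this]; exact h.preimage continuous_subtype_val

theorem CY_image {D : Set (Y p)} (h : IsClosed D) : CY p (Subtype.val '' D) := by
  have ho : IsOpen {x : X | x ≠ p} := isOpen_ne
  have h1 : IsOpen (Subtype.val '' Dᶜ : Set X) := ho.isOpenEmbedding_subtypeVal.isOpenMap _ h.isOpen_compl
  have : insert p (Subtype.val '' D : Set X) = (Subtype.val '' Dᶜ)ᶜ := by
    ext x
    by_cases hx : x = p
    · simp [hx]
    · simp [hx]
  unfold CY; rw [this]; exact h1.isClosed_compl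

theorem CY_of_closed {A : Set X} (h : IsClosed A) : CY p A := by
  unfold CY; rw [insert_eq]; exact isClosed_singleton.union h

theorem CY.inter {A B : Set X} (h : CY p A) (h' : CY p B) : CY p (A ∩ B) := by
  unfold CY; rw [insert_inter_distrib]; exact IsClosed.inter h h'

theorem cl_mono {A B : Set X} (h : A ⊆ B) : cl p A ⊆ cl p B :=
  closure_mono (image_mono (preimage_mono h))

theorem cl_union (A B : Set X) : cl p (A ∪ B) = cl p A ∪ cl p B := by
  unfold cl; rw [preimage_union, image_union, closure_union]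

theorem cl_closed (A : Set X) : IsClosed (cl p A) := isClosed_closure

theorem cl_univ : cl p univ = univ := by
  unfold cl; rw [preimage_univ, image_univ]; exact denseRange_stoneCechUnit.closure_range

theorem cl_congr {A B : Set X} (h : ∀ x, x ≠ p → x ∈ A → x ∈ B) : cl p A ⊆ cl p B :=
  closure_mono (image_mono fun x hx => h x x.2 hx)

theorem cl_disj {A B : Set X} (hA : CY p A) (hB : CY p B) (h : ∀ x, x ≠ p → x ∈ A → x ∉ B) :
    Disjoint (cl p A) (cl p B) := by
  obtain ⟨f, hf0, hf1, hf⟩ := exists_continuous_zero_one_of_isClosed hA.pre hB.pre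
    (Set.disjoint_left.2 fun x hx => h x x.2 hx)
  let g : Y p → unitInterval := fun x => ⟨f x, hf x⟩
  have hg : Continuous g := f.continuous.subtype_mk _
  have hc := continuous_stoneCechExtend hg
  have h0 : cl p A ⊆ stoneCechExtend hg ⁻¹' {0} := by
    apply closure_minimal _ (isClosed_singleton.preimage hc)
    rintro _ ⟨x, hx, rfl⟩
    simp only [mem_preimage, stoneCechExtend_stoneCechUnit, mem_singleton_iff]
    exact Subtype.ext (hf0 hx)
  have h1 : cl p B ⊆ stoneCechExtend hg ⁻¹' {1} := by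
    apply closure_minimal _ (isClosed_singleton.preimage hc)
    rintro _ ⟨x, hx, rfl⟩
    simp only [mem_preimage, stoneCechExtend_stoneCechUnit, mem_singleton_iff]
    exact Subtype.ext (hf1 hx)
  rw [Set.disjoint_left]
  intro z hz hz'
  have e0 := h0 hz
  have e1 := h1 hz'
  simp only [mem_preimage, mem_singleton_iff] at e0 e1
  rw [e0] at e1
  exact zero_ne_one e1

variable [CompactSpace X]

noncomputable def ph (p : X) : StoneCech (Y p) → X :=
  stoneCechExtend (continuous_subtype_val : Continuous (Subtype.val : Y p → X))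

theorem ph_cont : Continuous (ph p) := continuous_stoneCechExtend _

theorem ph_un (x : Y p) : ph p (un p x) = x := stoneCechExtend_stoneCechUnit _ x

theorem ph_cl {A : Set X} {z : StoneCech (Y p)} (hz : z ∈ cl p A) : ph p z ∈ closure (A \ {p}) := by
  have : cl p A ⊆ ph p ⁻¹' closure (A \ {p}) := by
    apply closure_minimal _ (isClosed_closure.preimage ph_cont)
    rintro _ ⟨x, hx, rfl⟩
    rw [mem_preimage, ph_un]
    exact subset_closure ⟨hx, x.2⟩
  exact this hz

theorem mem_rem {z : StoneCech (Y p)} : z ∈ rem p ↔ ph p z = p := by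
  constructor
  · intro hz
    by_contra hne
    have hd : 0 < dist (ph p z) p := dist_pos.2 hne
    set y := ph p z with hy
    set r := dist y p / 2 with hr
    have hz' : z ∈ cl p (closedBall y r) ∪ cl p (ball y r)ᶜ := by
      rw [← cl_union]
      have : closedBall y r ∪ (ball y r)ᶜ = univ := by
        apply eq_univ_of_forall
        intro x
        by_cases hx : x ∈ ball y r
        · exact Or.inl (ball_subset_closedBall hx)
        · exact Or.inr hx
      rw [this, cl_univ]; trivial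
    rcases hz' with h | h
    · have hK : IsCompact (Subtype.val ⁻¹' closedBall y r : Set (Y p)) := by
        apply Topology.IsInducing.subtypeVal.isCompact_preimage' (isCompact_closedBall y r)
        intro x hx
        refine ⟨⟨x, ?_⟩, rfl⟩
        intro hxp
        rw [hxp, mem_closedBall, dist_comm] at hx
        linarith
      have := (hK.image (continuous_stoneCechUnit (α := Y p))).isClosed
      unfold cl at h
      rw [this.closure_eq] at h
      exact hz (image_subset_range _ _ h)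
    · have h1 := closure_mono diff_subset (ph_cl h)
      rw [isOpen_ball.isClosed_compl.closure_eq] at h1
      exact h1 (mem_ball_self (by linarith))
  · rintro h ⟨x, rfl⟩
    rw [ph_un] at h
    exact x.2 h

theorem rem_closed : IsClosed (rem p) := by
  have : rem p = ph p ⁻¹' {p} := by ext z; exact mem_rem
  rw [this]; exact isClosed_singleton.preimage ph_cont

theorem acc_iff {A : Set X} : Acc p A ↔ (cl p A ∩ rem p).Nonempty := by
  constructor
  · intro h
    have hK : IsClosed (ph p '' cl p A) := ((cl_closed A).isCompact.image ph_cont).isClosed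
    have : closure (A \ {p}) ⊆ ph p '' cl p A := by
      apply closure_minimal _ hK
      rintro x ⟨hx, hxp⟩
      exact ⟨un p ⟨x, hxp⟩, subset_closure ⟨⟨x, hxp⟩, hx, rfl⟩, ph_un _⟩
    obtain ⟨z, hz, hzp⟩ := this h
    exact ⟨z, hz, mem_rem.2 hzp⟩
  · rintro ⟨z, hz, hzr⟩
    have := ph_cl hz
    rwa [mem_rem.1 hzr] at this

theorem rem_near {A : Set X} {ε : ℝ} (hε : 0 < ε) {z : StoneCech (Y p)} (hz : z ∈ cl p A)
    (hr : z ∈ rem p) : z ∈ cl p (A ∩ closedBall p ε) := by
  have h1 : z ∈ cl p (A ∩ closedBall p ε) ∪ cl p (ball p ε)ᶜ := by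
    rw [← cl_union]
    refine cl_mono ?_ hz
    intro x hx
    by_cases hb : x ∈ ball p ε
    · exact Or.inl ⟨hx, ball_subset_closedBall hb⟩
    · exact Or.inr hb
  rcases h1 with h | h
  · exact h
  · have h2 := closure_mono diff_subset (ph_cl h)
    rw [isOpen_ball.isClosed_compl.closure_eq, mem_rem.1 hr] at h2
    exact absurd (mem_ball_self hε) h2

/-- a splitting of `Z` near `p` -/
def Split (p : X) (Z : Set X) : Prop :=
  ∃ ε > 0, ∃ Z1 Z2 : Set X, CY p Z1 ∧ CY p Z2 ∧ Disjoint Z1 Z2 ∧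
    Z1 ∪ Z2 = (Z ∩ closedBall p ε) \ {p} ∧ Acc p Z1 ∧ Acc p Z2

theorem not_split_of_conn (h : IsPreconnected (rem p)) : ¬ Split p (univ : Set X) := by
  rintro ⟨ε, hε, Z1, Z2, h1, h2, hd, hu, a1, a2⟩
  have hdis := cl_disj h1 h2 (fun x _ hx => Set.disjoint_left.1 hd hx)
  have hcov : rem p ⊆ cl p Z1 ∪ cl p Z2 := by
    intro z hz
    have := rem_near (A := univ) hε (by rw [cl_univ]; trivial) hz
    rw [← cl_union, hu]
    exact cl_congr (B := (univ ∩ closedBall p ε) \ {p}) (fun x hx hx' => ⟨hx', hx⟩) this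
  rcases sub_of_closed h (cl_closed _) (cl_closed _) hdis hcov with h | h
  · obtain ⟨z, hz, hzr⟩ := acc_iff.1 a2
    exact Set.disjoint_left.1 hdis (h hzr) hz
  · obtain ⟨z, hz, hzr⟩ := acc_iff.1 a1
    exact Set.disjoint_left.1 hdis hz (h hzr)

theorem conn_of_not_split {Z : Set X} (hZ : CY p Z) (h : ¬ Split p Z) :
    IsPreconnected (cl p Z ∩ rem p) := by
  rw [isPreconnected_iff_subset_of_disjoint_closed]
  intro S T hS hT hcov hdis
  by_contra hn
  push Not at hn
  obtain ⟨hnS, hnT⟩ := hn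
  have hc : IsClosed (cl p Z ∩ rem p) := (cl_closed Z).inter rem_closed
  obtain ⟨U, V, hU, hV, hSU, hTV, hUV⟩ := normal_separation (hc.inter hS) (hc.inter hT) (by
    rw [Set.disjoint_left]
    rintro z ⟨hz, hzS⟩ ⟨_, hzT⟩
    have : z ∈ cl p Z ∩ rem p ∩ (S ∩ T) := ⟨hz, hzS, hzT⟩
    rw [hdis] at this; exact this)
  have hD : IsClosed (ph p '' (cl p Z ∩ (U ∪ V)ᶜ)) :=
    (((cl_closed Z).inter (hU.union hV).isClosed_compl).isCompact.image ph_cont).isClosed
  have hpD : p ∈ (ph p '' (cl p Z ∩ (U ∪ V)ᶜ))ᶜ := by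
    rintro ⟨z, ⟨hz, hz'⟩, hzp⟩
    have hzr := mem_rem.2 hzp
    rcases hcov ⟨hz, hzr⟩ with h | h
    · exact hz' (Or.inl (hSU ⟨⟨hz, hzr⟩, h⟩))
    · exact hz' (Or.inr (hTV ⟨⟨hz, hzr⟩, h⟩))
  obtain ⟨ε, hε, hb⟩ := nhds_basis_closedBall.mem_iff.1 (hD.isOpen_compl.mem_nhds hpD)
  have hin : ∀ x : Y p, x.1 ∈ Z → x.1 ∈ closedBall p ε → un p x ∈ U ∪ V := by
    intro x hx hx'
    by_contra hc
    exact hb hx' ⟨un p x, ⟨subset_closure ⟨x, hx, rfl⟩, hc⟩, ph_un x⟩
  have hZb : IsClosed (Subtype.val ⁻¹' (Z ∩ closedBall p ε) : Set (Y p)) :=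
    (hZ.inter (CY_of_closed isClosed_closedBall)).pre
  have key : ∀ U V : Set (StoneCech (Y p)), IsOpen U → Disjoint U V →
      (∀ x : Y p, x.1 ∈ Z → x.1 ∈ closedBall p ε → un p x ∈ U ∪ V) →
      ∀ z ∈ cl p Z ∩ rem p, z ∈ U →
      Acc p (Subtype.val '' (Subtype.val ⁻¹' (Z ∩ closedBall p ε) ∩ (un p ⁻¹' V)ᶜ : Set (Y p))) := by
    intro U V hU hUV hin z hz hzU
    refine acc_iff.2 ⟨z, ?_, hz.2⟩
    have h1 := rem_near hε hz.1 hz.2
    unfold cl at h1 ⊢
    rw [_root_.mem_closure_iff] at h1 ⊢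
    intro o ho hzo
    obtain ⟨_, ⟨ho1, ho2⟩, x, hx, rfl⟩ := h1 (o ∩ U) (ho.inter hU) ⟨hzo, hzU⟩
    exact ⟨un p x, ho1, x, ⟨x, ⟨hx, fun hv => Set.disjoint_left.1 hUV ho2 hv⟩, rfl⟩, rfl⟩
  apply h
  obtain ⟨t, ht, htS⟩ := not_subset.1 hnS
  obtain ⟨s, hs, hsT⟩ := not_subset.1 hnT
  refine ⟨ε, hε, Subtype.val '' (Subtype.val ⁻¹' (Z ∩ closedBall p ε) ∩ (un p ⁻¹' V)ᶜ : Set (Y p)),
    Subtype.val '' (Subtype.val ⁻¹' (Z ∩ closedBall p ε) ∩ (un p ⁻¹' U)ᶜ : Set (Y p)),
    CY_image (hZb.inter (hV.preimage continuous_stoneCechUnit).isClosed_compl),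
    CY_image (hZb.inter (hU.preimage continuous_stoneCechUnit).isClosed_compl), ?_, ?_,
    key U V hU hUV hin s hs (hSU ⟨hs, (hcov hs).resolve_right hsT⟩),
    key V U hV hUV.symm (fun x a b => by rw [union_comm]; exact hin x a b) t ht
      (hTV ⟨ht, (hcov ht).resolve_left htS⟩)⟩
  · rw [Set.disjoint_image_iff Subtype.val_injective, Set.disjoint_left]
    rintro x ⟨hx, hxV⟩ ⟨_, hxU⟩
    rcases hin x hx.1 hx.2 with h | h
    · exact hxU h
    · exact hxV h
  · ext x
    constructor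
    · rintro (⟨y, hy, rfl⟩ | ⟨y, hy, rfl⟩)
      · exact ⟨hy.1, y.2⟩
      · exact ⟨hy.1, y.2⟩
    · rintro ⟨hx, hxp⟩
      by_cases hv : un p ⟨x, hxp⟩ ∈ V
      · exact Or.inr ⟨⟨x, hxp⟩, ⟨hx, fun hu => Set.disjoint_left.1 hUV hu hv⟩, rfl⟩
      · exact Or.inl ⟨⟨x, hxp⟩, ⟨hx, hv⟩, rfl⟩

/-- criterion for indecomposability -/
theorem indec_crit
    (H : ∀ W V : Set X, IsOpen W → IsOpen V → Acc p W → Acc p V → ∃ Z1 Z2 : Set X, CY p Z1 ∧
      CY p Z2 ∧ Disjoint Z1 Z2 ∧ (∀ x, x ≠ p → x ∈ Z1 ∪ Z2 ∪ W) ∧ Acc p (V ∩ Z1) ∧ Acc p (V ∩ Z2)) :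
    ¬ ∃ A B : Set (StoneCech (Y p)), IsCompact A ∧ IsConnected A ∧ A ⊂ rem p ∧ IsCompact B ∧
      IsConnected B ∧ B ⊂ rem p ∧ A ∪ B = rem p := by
  rintro ⟨A, B, hA, hAc, hAR, hB, -, hBR, hAB⟩
  have key : ∀ A : Set (StoneCech (Y p)), IsCompact A → A ⊂ rem p →
      ∃ W : Set X, IsOpen W ∧ Acc p W ∧ Disjoint (cl p W) A := by
    intro A hA hAR
    obtain ⟨z, hzr, hzA⟩ := exists_of_ssubset hAR
    obtain ⟨t, ht, htc, hts⟩ := exists_mem_nhds_isClosed_subset (hA.isClosed.isOpen_compl.mem_nhds hzA)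
    have ho : IsOpen {x : X | x ≠ p} := isOpen_ne
    refine ⟨Subtype.val '' (un p ⁻¹' interior t), ho.isOpenEmbedding_subtypeVal.isOpenMap _
      (isOpen_interior.preimage continuous_stoneCechUnit), acc_iff.2 ⟨z, ?_, hzr⟩, ?_⟩
    · unfold cl
      rw [preimage_image_eq _ Subtype.val_injective, image_preimage_eq_inter_range]
      exact denseRange_stoneCechUnit.open_subset_closure_inter isOpen_interior
        (mem_interior_iff_mem_nhds.2 ht)
    · have : cl p (Subtype.val '' (un p ⁻¹' interior t)) ⊆ t := by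
        apply closure_minimal _ htc
        rw [preimage_image_eq _ Subtype.val_injective]
        exact (image_preimage_subset _ _).trans interior_subset
      exact Set.disjoint_left.2 fun y hy => hts (this hy)
  obtain ⟨W, hW, aW, dW⟩ := key A hA hAR
  obtain ⟨V, hV, aV, dV⟩ := key B hB hBR
  obtain ⟨Z1, Z2, h1, h2, hd, hcov, a1, a2⟩ := H W V hW hV aW aV
  have hdis := cl_disj h1 h2 (fun x _ hx => Set.disjoint_left.1 hd hx)
  have hc : A ⊆ cl p Z1 ∪ cl p Z2 := by
    intro z hz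
    have : z ∈ cl p (Z1 ∪ Z2 ∪ W) := cl_congr (A := univ) (fun x hx _ => hcov x hx) (by rw [cl_univ]; trivial)
    rw [cl_union, cl_union] at this
    exact this.resolve_right fun h => Set.disjoint_left.1 dW h hz
  have fin : ∀ Z : Set X, Acc p (V ∩ Z) → ∃ z ∈ A, z ∈ cl p Z := by
    intro Z a
    obtain ⟨z, hz, hzr⟩ := acc_iff.1 a
    rw [← hAB] at hzr
    exact ⟨z, hzr.resolve_right (Set.disjoint_left.1 dV (cl_mono inter_subset_left hz)),
      cl_mono inter_subset_right hz⟩
  rcases sub_of_closed hAc.isPreconnected (cl_closed _) (cl_closed _) hdis hc with h | h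
  · obtain ⟨z, hz, hz'⟩ := fin Z2 a2
    exact Set.disjoint_left.1 hdis (h hz) hz'
  · obtain ⟨z, hz, hz'⟩ := fin Z1 a1
    exact Set.disjoint_left.1 hdis hz' (h hz)

end beta

end Pool.Agent.H.MP_19acf5_gt
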