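import Pool.Agent.H.MP_19acf5_gt.A

open Set Filter Topology Metric

namespace Pool.Agent.H.MP_19acf5_gt

universe u

theorem diag {ι : Type*} [Countable ι] [Nonempty ι] (N : ι → Set ℕ) :
    ∃ E : Set ℕ, E.Infinite ∧ Eᶜ.Infinite ∧ ∀ i, (N i).Infinite → (N i \ E).Infinite := by
  classical
  obtain ⟨e, he⟩ := exists_surjective_nat ι
  have h1 : ∀ (i : ι) (m : ℕ), ∃ k, m < k ∧ ((N i).Infinite → k ∈ N i) := by
    intro i m
    by_cases h : (N i).Infinite
    · obtain ⟨k, hk, hk'⟩ := h.exists_gt m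
      exact ⟨k, hk', fun _ => hk⟩
    · exact ⟨m + 1, by omega, fun h' => absurd h' h⟩
  choose g hg1 hg2 using h1
  let a : ℕ → ℕ := fun t => Nat.rec 0 (fun t x => g (e t.unpair.1) (x + 1)) t
  have ha : ∀ t, a (t + 1) = g (e t.unpair.1) (a t + 1) := fun _ => rfl
  have hlt : ∀ t, a t + 1 < a (t + 1) := fun t => by rw [ha]; exact hg1 _ _
  have hm : StrictMono a := strictMono_nat_of_lt_succ fun t => by have := hlt t; omega
  have hno : ∀ s, a s ∉ range (fun t => a t + 1) := by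
    rintro s ⟨t, ht⟩
    simp only at ht
    rcases le_or_gt s t with h | h
    · have := hm.monotone h; omega
    · have := hm.monotone (Nat.succ_le_of_lt h); have := hlt t; simp only [Nat.succ_eq_add_one] at *; omega
  refine ⟨range (fun t => a t + 1), infinite_range_of_injective ?_, ?_, ?_⟩
  · intro s t h
    exact hm.injective (by simpa using h)
  · exact Set.infinite_of_injective_forall_mem hm.injective hno
  · intro i hi
    obtain ⟨j, rfl⟩ := he i
    refine Set.infinite_of_injective_forall_mem (f := fun l => a (Nat.pair j l + 1)) ?_ ?_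
    · intro s t h
      have := hm.injective (a₁ := Nat.pair j s + 1) (a₂ := Nat.pair j t + 1) h
      have h2 : Nat.pair j s = Nat.pair j t := by omega
      exact (Nat.pair_eq_pair.1 h2).2
    · intro l
      refine ⟨?_, hno (Nat.pair j l + 1)⟩
      show a (Nat.pair j l + 1) ∈ _
      rw [ha, Nat.unpair_pair]
      exact hg2 _ _ hi

variable {X : Type u} [MetricSpace X] {p : X}

theorem seqset {x : ℕ → X} (hx : Tendsto x atTop (𝓝 p)) (hne : ∀ n, x n ≠ p) {S : Set ℕ}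
    (hS : S.Infinite) : ∃ D : Set X, CY p D ∧ Acc p D ∧ ∀ y, y ≠ p → y ∈ D → ∃ n ∈ S, y = x n := by
  classical
  let y : ℕ → X := fun n => if n ∈ S then x n else p
  have hy : Tendsto y atTop (𝓝 p) := by
    rw [tendsto_def]
    intro s hs
    filter_upwards [hx hs] with n hn
    by_cases h : n ∈ S
    · simpa [y, h] using hn
    · simpa [y, h] using mem_of_mem_nhds hs
  refine ⟨range y, hy.isCompact_insert_range.isClosed, ?_, ?_⟩
  · apply mem_closure_of_frequently_of_tendsto _ hx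
    rw [← Nat.cofinite_eq_atTop]
    refine (Set.Infinite.frequently_cofinite hS).mono fun n hn => ⟨⟨n, by simp [y, hn]⟩, hne n⟩
  · rintro _ hne ⟨n, rfl⟩
    by_cases h : n ∈ S
    · exact ⟨n, h, by simp [y, h]⟩
    · exact absurd (by simp [y, h]) hne

theorem Acc.mono {A B : Set X} (h : Acc p A) (hAB : ∀ x, x ≠ p → x ∈ A → x ∈ B) : Acc p B :=
  closure_mono (t := B \ {p}) (fun x hx => ⟨hAB x hx.2 hx.1, hx.2⟩) h

theorem Acc.near {A : Set X} (h : Acc p A) {ε : ℝ} (hε : 0 < ε) : Acc p (A ∩ closedBall p ε) := by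
  have := isOpen_ball.inter_closure (s := ball p ε) ⟨mem_ball_self hε, h⟩
  exact closure_mono (t := (A ∩ closedBall p ε) \ {p})
    (fun x hx => ⟨⟨hx.2.1, ball_subset_closedBall hx.1⟩, hx.2.2⟩) this

variable [CompactSpace X]

theorem clopens {r : ℝ} (hr : 0 < r)
    (h : p ∉ interior (connectedComponentIn (closedBall p r) p)) :
    ∃ (O : ℕ → Set X) (x : ℕ → X), (∀ n, IsClosed (O n)) ∧ (∀ n, IsOpen (O n ∩ ball p r)) ∧
      (∀ n, p ∉ O n) ∧ (∀ m n, m ≠ n → Disjoint (O m) (O n)) ∧ (∀ n, x n ∈ O n ∩ ball p r) ∧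
      Tendsto x atTop (𝓝 p) := by
  let Cl : Set X → Prop := fun F => IsClosed F ∧ IsClosed (closedBall p r \ F) ∧ p ∉ F
  have step : ∀ (F : {F // Cl F}) (n : ℕ), ∃ O : {F // Cl F}, Disjoint O.1 F.1 ∧
      ∃ x ∈ O.1 ∩ ball p r, dist x p < 1 / (n + 1 : ℝ) := by
    rintro ⟨F, hF1, hF2, hF3⟩ n
    have hn : (0 : ℝ) < 1 / (n + 1 : ℝ) := Nat.one_div_pos_of_nat
    have : ¬ (ball p r ∩ ball p (1 / (n + 1 : ℝ)) ∩ Fᶜ ⊆ connectedComponentIn (closedBall p r) p) := by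
      intro hs
      exact h (interior_maximal hs ((isOpen_ball.inter isOpen_ball).inter hF1.isOpen_compl)
        ⟨⟨mem_ball_self hr, mem_ball_self hn⟩, hF3⟩)
    obtain ⟨x, ⟨⟨hx1, hx2⟩, hx3⟩, hxC⟩ := not_subset.1 this
    obtain ⟨S, T, hS, hT, hd, hu, hxS, hpT⟩ := cutwire (isCompact_closedBall p r)
      (isClosed_singleton (x := x)) (isClosed_singleton (x := p)) (by
        rintro a ⟨rfl, ha⟩ b ⟨rfl, -⟩ hab
        apply hxC
        rw [← connectedComponentIn_eq hab]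
        exact mem_connectedComponentIn ha)
    refine ⟨⟨S ∩ (closedBall p r \ F), hS.inter hF2, ?_, fun hp => ?_⟩, ?_, x,
      ⟨⟨hxS ⟨rfl, ball_subset_closedBall hx1⟩, ball_subset_closedBall hx1, hx3⟩, hx1⟩, hx2⟩
    · have : closedBall p r \ (S ∩ (closedBall p r \ F)) = T ∪ F ∩ closedBall p r := by
        ext y
        constructor
        · rintro ⟨hy, hy'⟩
          by_cases hF : y ∈ F
          · exact Or.inr ⟨hF, hy⟩
          · have : y ∈ S ∪ T := hu ▸ hy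
            exact Or.inl (this.resolve_left fun hs => hy' ⟨hs, hy, hF⟩)
        · rintro (hy | hy)
          · exact ⟨hu ▸ Or.inr hy, fun hs => Set.disjoint_left.1 hd hs.1 hy⟩
          · exact ⟨hy.2, fun hs => hs.2.2 hy.1⟩
      rw [this]; exact hT.union (hF1.inter isClosed_closedBall)
    · exact Set.disjoint_left.1 hd hp.1 (hpT ⟨rfl, mem_closedBall_self hr.le⟩)
    · exact Set.disjoint_left.2 fun y hy => hy.2.2
  choose g hg x hx hxd using step
  have hun : ∀ F G : {F // Cl F}, Cl (F.1 ∪ G.1) := by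
    rintro ⟨F, hF1, hF2, hF3⟩ ⟨G, hG1, hG2, hG3⟩
    refine ⟨hF1.union hG1, ?_, fun h => h.elim hF3 hG3⟩
    rw [← diff_inter_diff]; exact hF2.inter hG2
  let F : ℕ → {F // Cl F} := fun n => Nat.rec ⟨∅, isClosed_empty, by simpa using isClosed_closedBall,
    notMem_empty _⟩ (fun n F => ⟨F.1 ∪ (g F n).1, hun _ _⟩) n
  have hF : ∀ n, (F (n + 1)).1 = (F n).1 ∪ (g (F n) n).1 := fun _ => rfl
  have hmono : Monotone fun n => (F n).1 := monotone_nat_of_le_succ fun n => by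
    rw [hF]; exact subset_union_left
  have hlt : ∀ m n, m < n → Disjoint (g (F m) m).1 (g (F n) n).1 := by
    intro m n hmn
    refine (hg (F n) n).symm.mono_left ?_
    refine subset_trans ?_ (hmono (Nat.succ_le_of_lt hmn))
    show _ ⊆ (F (m + 1)).1
    rw [hF]; exact subset_union_right
  refine ⟨fun n => (g (F n) n).1, fun n => x (F n) n, fun n => (g (F n) n).2.1, fun n => ?_,
    fun n => (g (F n) n).2.2.2, fun m n hmn => ?_, fun n => hx _ _, ?_⟩
  · have : (g (F n) n).1 ∩ ball p r = ball p r ∩ (closedBall p r \ (g (F n) n).1)ᶜ := by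
      ext y
      constructor
      · rintro ⟨h1, h2⟩; exact ⟨h2, fun h => h.2 h1⟩
      · rintro ⟨h1, h2⟩
        exact ⟨by_contra fun h => h2 ⟨ball_subset_closedBall h1, h⟩, h1⟩
    rw [this]; exact isOpen_ball.inter (g (F n) n).2.2.1.isOpen_compl
  · rcases lt_or_gt_of_ne hmn with h | h
    · exact hlt _ _ h
    · exact (hlt _ _ h).symm
  · rw [tendsto_iff_dist_tendsto_zero]
    exact squeeze_zero (fun _ => dist_nonneg) (fun n => (hxd _ n).le)
      tendsto_one_div_add_atTop_nhds_zero_nat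

abbrev FB (X : Type u) [MetricSpace X] [CompactSpace X] :=
  {s : Set (Set X) // s.Finite ∧ s ⊆ TopologicalSpace.countableBasis X}

instance : Countable (FB X) :=
  (Set.countable_setOf_finite_subset (TopologicalSpace.countable_countableBasis X)).to_subtype

instance : Nonempty (FB X) := ⟨⟨∅, finite_empty, empty_subset _⟩⟩

theorem FB.open (s : FB X) : IsOpen (⋃₀ s.1) :=
  isOpen_sUnion fun _ ht => TopologicalSpace.isOpen_of_mem_countableBasis (s.2.2 ht)

theorem FB.exists {K G : Set X} (hK : IsCompact K) (hG : IsOpen G) (h : K ⊆ G) :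
    ∃ s : FB X, K ⊆ ⋃₀ s.1 ∧ ⋃₀ s.1 ⊆ G := by
  have h1 : ∀ x ∈ K, ∃ t ∈ TopologicalSpace.countableBasis X, x ∈ t ∧ t ⊆ G := fun x hx =>
    (TopologicalSpace.isBasis_countableBasis X).exists_subset_of_mem_open (h hx) hG
  choose! t ht hxt htG using h1
  obtain ⟨b, hbK, hbf, hb⟩ := hK.elim_finite_subcover_image
    (fun x hx => TopologicalSpace.isOpen_of_mem_countableBasis (ht x hx))
    (fun x hx => mem_iUnion₂.2 ⟨x, hx, hxt x hx⟩)
  refine ⟨⟨t '' b, hbf.image _, ?_⟩, ?_, ?_⟩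
  · rintro _ ⟨x, hx, rfl⟩; exact ht x (hbK hx)
  · rwa [sUnion_image]
  · rw [sUnion_image]; exact iUnion₂_subset fun x hx => htG x (hbK hx)

theorem split_up {r : ℝ} (hr : 0 < r) {O : ℕ → Set X} (hOc : ∀ n, IsClosed (O n))
    (hOo : ∀ n, IsOpen (O n ∩ ball p r)) (hOp : ∀ n, p ∉ O n)
    (hOd : ∀ m n, m ≠ n → Disjoint (O m) (O n)) {E : Set ℕ}
    (hE : ∀ (s t : FB X) (k : ℕ), let P := fun n => O n ∩ closedBall p (1 / (k + 1 : ℝ))
      let N := {n | ∃ a ∈ ⋃₀ s.1 ∩ P n, ∃ b ∈ ⋃₀ t.1 ∩ P n, b ∈ connectedComponentIn (P n) a}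
      N.Infinite → (N \ E).Infinite)
    (hs : Split p (⋃ n ∈ E, O n ∩ ball p r)ᶜ) : Split p (univ : Set X) := by
  classical
  obtain ⟨ε, hε, Z1, Z2, h1, h2, hd, hu, a1, a2⟩ := hs
  set Z := (⋃ n ∈ E, O n ∩ ball p r)ᶜ with hZ
  obtain ⟨k, hk⟩ := exists_nat_one_div_lt (lt_min hε hr)
  set ρ : ℝ := 1 / (k + 1 : ℝ) with hρ
  have hρ0 : 0 < ρ := Nat.one_div_pos_of_nat
  have hρε : closedBall p ρ ⊆ closedBall p ε := closedBall_subset_closedBall (hk.le.trans (min_le_left _ _))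
  have hρr : closedBall p ρ ⊆ ball p r := closedBall_subset_ball (hk.trans_le (min_le_right _ _))
  let P := fun n => O n ∩ closedBall p ρ
  have hPc : ∀ n, IsClosed (P n) := fun n => (hOc n).inter isClosed_closedBall
  let G1 := {x | infDist x (insert p Z1) < infDist x (insert p Z2)}
  let G2 := {x | infDist x (insert p Z2) < infDist x (insert p Z1)}
  have hG1 : IsOpen G1 := isOpen_lt (continuous_infDist_pt _) (continuous_infDist_pt _)
  have hG2 : IsOpen G2 := isOpen_lt (continuous_infDist_pt _) (continuous_infDist_pt _)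
  have hGd : Disjoint G1 G2 := Set.disjoint_left.2 fun x h h' =>
    lt_asymm (show infDist x (insert p Z1) < infDist x (insert p Z2) from h) h'
  have hp1 : ∀ x ∈ Z1, x ≠ p := fun x hx => (hu.subset (Or.inl hx)).2
  have hp2 : ∀ x ∈ Z2, x ≠ p := fun x hx => (hu.subset (Or.inr hx)).2
  have hZ1 : Z1 ⊆ G1 := by
    intro x hx
    show infDist x (insert p Z1) < infDist x (insert p Z2)
    rw [infDist_zero_of_mem (mem_insert_of_mem _ hx)]
    refine (IsClosed.notMem_iff_infDist_pos h2 (insert_nonempty _ _)).1 ?_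
    rintro (h | h)
    · exact hp1 x hx h
    · exact Set.disjoint_left.1 hd hx h
  have hZ2 : Z2 ⊆ G2 := by
    intro x hx
    show infDist x (insert p Z2) < infDist x (insert p Z1)
    rw [infDist_zero_of_mem (mem_insert_of_mem _ hx)]
    refine (IsClosed.notMem_iff_infDist_pos h1 (insert_nonempty _ _)).1 ?_
    rintro (h | h)
    · exact hp2 x hx h
    · exact Set.disjoint_left.1 hd h hx
  let L : ℕ → Set X := fun t => {x | 1 ≤ (t : ℝ) * dist x p}
  have hLc : ∀ t, IsClosed (L t) := fun t => isClosed_le continuous_const (by fun_prop)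
  have hLp : ∀ t, p ∉ L t := fun t h => by
    have : (1 : ℝ) ≤ t * dist p p := h
    rw [dist_self, mul_zero] at this; linarith
  let Good : ℕ → ℕ → Prop := fun n t => ∀ a ∈ (L t \ G2) ∩ P n, ∀ b ∈ (L t \ G1) ∩ P n,
    b ∉ connectedComponentIn (P n) a
  have hgood : ∀ t, ∀ᶠ n in atTop, Good n t := by
    intro t
    obtain ⟨s1, hs1, hs1'⟩ := FB.exists (((hLc t).inter h1).isCompact) hG1 (by
      rintro x ⟨hx, rfl | hx'⟩
      · exact absurd hx (hLp t)
      · exact hZ1 hx')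
    obtain ⟨s2, hs2, hs2'⟩ := FB.exists (((hLc t).inter h2).isCompact) hG2 (by
      rintro x ⟨hx, rfl | hx'⟩
      · exact absurd hx (hLp t)
      · exact hZ2 hx')
    have hfin : {n | ∃ a ∈ ⋃₀ s1.1 ∩ P n, ∃ b ∈ ⋃₀ s2.1 ∩ P n,
        b ∈ connectedComponentIn (P n) a}.Finite := by
      by_contra hinf
      obtain ⟨n, ⟨a, ha, b, hb, hab⟩, hnE⟩ := (hE s1 s2 k hinf).nonempty
      have hsub : connectedComponentIn (P n) a ⊆ G1 ∪ G2 := by
        intro y hy
        have hy := connectedComponentIn_subset _ _ hy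
        have : y ∈ Z1 ∪ Z2 := by
          rw [hu]
          refine ⟨⟨?_, hρε hy.2⟩, fun h => hOp n (h ▸ hy.1)⟩
          intro hm
          obtain ⟨m, hm, hym⟩ := mem_iUnion₂.1 hm
          exact Set.disjoint_left.1 (hOd m n (fun h => hnE (h ▸ hm))) hym.1 hy.1
        exact this.imp (fun h => hZ1 h) (fun h => hZ2 h)
      rcases isPreconnected_connectedComponentIn.subset_or_subset hG1 hG2 hGd hsub with h | h
      · exact Set.disjoint_left.1 hGd (h hab) (hs2' hb.1)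
      · exact Set.disjoint_left.1 hGd (hs1' ha.1) (h (mem_connectedComponentIn ha.2))
    obtain ⟨T, hTE, hTf, hT⟩ := ((((hLc t).inter isClosed_closedBall).inter
      (s1.open.union s2.open).isClosed_compl).isCompact).elim_finite_subcover_image
      (b := E) (c := fun n => O n ∩ ball p r) (fun n _ => hOo n) (by
        rintro x ⟨⟨hx1, hx2⟩, hx3⟩
        by_contra hc
        have : x ∈ Z1 ∪ Z2 := by
          rw [hu]; exact ⟨⟨hc, hρε hx2⟩, fun h => hLp t (h ▸ hx1)⟩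
        rcases this with h | h
        · exact hx3 (Or.inl (hs1 ⟨hx1, Or.inr h⟩))
        · exact hx3 (Or.inr (hs2 ⟨hx1, Or.inr h⟩)))
    rw [← Nat.cofinite_eq_atTop]
    filter_upwards [hfin.compl_mem_cofinite, hTf.compl_mem_cofinite] with n hn1 hn2
    have hin : ∀ x ∈ L t, x ∈ P n → x ∈ ⋃₀ s1.1 ∪ ⋃₀ s2.1 := by
      intro x hx hx'
      by_contra hc
      obtain ⟨m, hm, hxm⟩ := mem_iUnion₂.1 (hT ⟨⟨hx, hx'.2⟩, hc⟩)
      exact Set.disjoint_left.1 (hOd m n (fun h => hn2 (h ▸ hm))) hxm.1 hx'.1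
    intro a ha b hb hab
    apply hn1
    exact ⟨a, ⟨(hin a ha.1.1 ha.2).resolve_right fun h => ha.1.2 (hs2' h), ha.2⟩, b,
      ⟨(hin b hb.1.1 hb.2).resolve_left fun h => hb.1.2 (hs1' h), hb.2⟩, hab⟩
  let τ : ℕ → ℕ := fun n => Nat.findGreatest (Good n) n
  have hτ1 : ∀ n, Good n (τ n) := by
    intro n
    refine Nat.findGreatest_spec (Nat.zero_le n) ?_
    intro a ha
    have : (1 : ℝ) ≤ ((0 : ℕ) : ℝ) * dist a p := ha.1.1
    simp only [Nat.cast_zero, zero_mul] at this; linarith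
  have hτ2 : ∀ t, ∃ n0, ∀ n ≥ n0, t ≤ τ n := by
    intro t
    apply eventually_atTop.1
    filter_upwards [hgood t, eventually_ge_atTop t] with n hn hn'
    exact Nat.le_findGreatest hn' hn
  have hcut := fun n => cutwire (hPc n).isCompact ((hLc (τ n)).inter hG2.isClosed_compl)
    ((hLc (τ n)).inter hG1.isClosed_compl) (hτ1 n)
  choose S T hS hT hST hU hA hB using hcut
  have key : ∀ (Za Zb Ga Gb : Set X) (Sa Sb : ℕ → Set X), IsOpen Gb → Zb ⊆ Gb → Disjoint Ga Gb →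
      Za ⊆ Ga → Za ∪ Zb = (Z ∩ closedBall p ε) \ {p} → (∀ n, IsClosed (Sa n)) →
      (∀ n, Disjoint (Sa n) (Sb n)) → (∀ n, Sa n ⊆ P n) → (∀ n, (L (τ n) ∩ Gaᶜ) ∩ P n ⊆ Sb n) →
      CY p (Za ∩ closedBall p ρ ∪ ⋃ n ∈ E, Sa n) := by
    intro Za Zb Ga Gb Sa Sb hGb hZb hG hZa hu hSa hSd hSP hSb
    unfold CY
    rw [← isOpen_compl_iff, isOpen_iff_mem_nhds]
    intro y hy
    have hyp : y ≠ p := fun h => hy (Or.inl h)
    by_cases hb : y ∈ closedBall p ρ
    swap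
    · filter_upwards [isClosed_closedBall.isOpen_compl.mem_nhds hb] with x hx
      rintro (h | h | h)
      · exact hx (h ▸ mem_closedBall_self hρ0.le)
      · exact hx h.2
      · obtain ⟨n, _, hn⟩ := mem_iUnion₂.1 h
        exact hx (hSP n hn).2
    by_cases hyZ : y ∈ Z
    swap
    · obtain ⟨m, hm, hym⟩ := mem_iUnion₂.1 (not_not.1 hyZ)
      have hyS : y ∉ Sa m := fun h => hy (Or.inr (Or.inr (mem_iUnion₂.2 ⟨m, hm, h⟩)))
      filter_upwards [(hOo m).mem_nhds hym, (hSa m).isOpen_compl.mem_nhds hyS] with x hx hx'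
      rintro (h | h | h)
      · exact hOp m (h ▸ hx.1)
      · exact (hu.subset (Or.inl h.1)).1.1 (mem_iUnion₂.2 ⟨m, hm, hx⟩)
      · obtain ⟨n, _, hn⟩ := mem_iUnion₂.1 h
        by_cases hmn : m = n
        · exact hx' (hmn ▸ hn)
        · exact Set.disjoint_left.1 (hOd m n hmn) hx.1 (hSP n hn).1
    have hyb : y ∈ Zb := (hu.symm.subset ⟨⟨hyZ, hρε hb⟩, hyp⟩).resolve_left
      fun h => hy (Or.inr (Or.inl ⟨h, hb⟩))
    have hdp : 0 < dist y p := dist_pos.2 hyp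
    obtain ⟨t, ht⟩ := exists_nat_gt (1 / dist y p)
    have ht' : 1 < (t : ℝ) * dist y p := by rwa [div_lt_iff₀ hdp] at ht
    obtain ⟨n0, hn0⟩ := hτ2 t
    have e1 : ∀ᶠ x in 𝓝 y, 1 < (t : ℝ) * dist x p :=
      (isOpen_lt continuous_const (by fun_prop)).mem_nhds ht'
    have e2 : ∀ᶠ x in 𝓝 y, ∀ n ∈ Finset.range n0, n ∈ E → x ∉ P n := by
      rw [eventually_all_finset]
      intro n _
      by_cases hn : n ∈ E
      · have : y ∉ P n := fun h => hyZ (mem_iUnion₂.2 ⟨n, hn, h.1, hρr h.2⟩)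
        filter_upwards [(hPc n).isOpen_compl.mem_nhds this] with x hx _ using hx
      · exact Eventually.of_forall fun x h => absurd h hn
    filter_upwards [hGb.mem_nhds (hZb hyb), e1, e2] with x hx hx1 hx2
    rintro (h | h | h)
    · rw [h, dist_self, mul_zero] at hx1; linarith
    · exact Set.disjoint_left.1 hG (hZa h.1) hx
    · obtain ⟨n, hnE, hn⟩ := mem_iUnion₂.1 h
      by_cases hlt : n < n0
      · exact hx2 n (Finset.mem_range.2 hlt) hnE (hSP n hn)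
      · refine Set.disjoint_left.1 (hSd n) hn (hSb n ⟨⟨?_, fun h => Set.disjoint_left.1 hG h hx⟩, hSP n hn⟩)
        have : (t : ℝ) ≤ τ n := by exact_mod_cast hn0 n (not_lt.1 hlt)
        exact hx1.le.trans (mul_le_mul_of_nonneg_right this dist_nonneg)
  have hSP : ∀ n, S n ⊆ P n := fun n => hU n ▸ subset_union_left
  have hTP : ∀ n, T n ⊆ P n := fun n => hU n ▸ subset_union_right
  have hZP : ∀ x ∈ Z1 ∪ Z2, ∀ n ∈ E, x ∉ P n := fun x hx n hn h =>
    (hu.subset hx).1.1 (mem_iUnion₂.2 ⟨n, hn, h.1, hρr h.2⟩)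
  refine ⟨ρ, hρ0, _, _, key Z1 Z2 G1 G2 S T hG2 hZ2 hGd hZ1 hu hS hST hSP hB,
    key Z2 Z1 G2 G1 T S hG1 hZ1 hGd.symm hZ2 (by rw [union_comm, hu]) hT (fun n => (hST n).symm)
      hTP hA, ?_, ?_, (a1.near hρ0).mono fun x _ h => Or.inl h, (a2.near hρ0).mono fun x _ h => Or.inl h⟩
  · rw [Set.disjoint_left]
    rintro x (h | h) (h' | h')
    · exact Set.disjoint_left.1 hd h.1 h'.1
    · obtain ⟨n, hn, hx⟩ := mem_iUnion₂.1 h'
      exact hZP x (Or.inl h.1) n hn (hTP n hx)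
    · obtain ⟨n, hn, hx⟩ := mem_iUnion₂.1 h
      exact hZP x (Or.inr h'.1) n hn (hSP n hx)
    · obtain ⟨n, hn, hx⟩ := mem_iUnion₂.1 h
      obtain ⟨m, hm, hx'⟩ := mem_iUnion₂.1 h'
      by_cases hmn : m = n
      · exact Set.disjoint_left.1 (hST n) hx (hmn ▸ hx')
      · exact Set.disjoint_left.1 (hOd m n hmn) (hTP m hx').1 (hSP n hx).1
  · ext x
    constructor
    · rintro ((h | h) | (h | h))
      · exact ⟨⟨trivial, h.2⟩, hp1 x h.1⟩
      · obtain ⟨n, _, hx⟩ := mem_iUnion₂.1 h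
        exact ⟨⟨trivial, (hSP n hx).2⟩, fun h => hOp n (h ▸ (hSP n hx).1)⟩
      · exact ⟨⟨trivial, h.2⟩, hp2 x h.1⟩
      · obtain ⟨n, _, hx⟩ := mem_iUnion₂.1 h
        exact ⟨⟨trivial, (hTP n hx).2⟩, fun h => hOp n (h ▸ (hTP n hx).1)⟩
    · rintro ⟨⟨-, hx⟩, hxp⟩
      by_cases hxZ : x ∈ Z
      · rcases hu.symm.subset ⟨⟨hxZ, hρε hx⟩, hxp⟩ with h | h
        · exact Or.inl (Or.inl ⟨h, hx⟩)
        · exact Or.inr (Or.inl ⟨h, hx⟩)
      · obtain ⟨m, hm, hym⟩ := mem_iUnion₂.1 (not_not.1 hxZ)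
        rcases (hU m).symm.subset ⟨hym.1, hx⟩ with h | h
        · exact Or.inl (Or.inr (mem_iUnion₂.2 ⟨m, hm, h⟩))
        · exact Or.inr (Or.inr (mem_iUnion₂.2 ⟨m, hm, h⟩))

theorem cik (hc : IsConnected (rem p))
    (hi : ¬ ∃ A B : Set (StoneCech (Y p)), IsCompact A ∧ IsConnected A ∧ A ⊂ rem p ∧ IsCompact B ∧
      IsConnected B ∧ B ⊂ rem p ∧ A ∪ B = rem p) (U : Set X) (hU : IsOpen U) (hp : p ∈ U) :
    ∃ C : Set X, IsConnected C ∧ C ⊆ U ∧ p ∈ interior C := by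
  obtain ⟨r, hr, hrU⟩ := nhds_basis_closedBall.mem_iff.1 (hU.mem_nhds hp)
  by_contra hn
  have h : p ∉ interior (connectedComponentIn (closedBall p r) p) := fun h =>
    hn ⟨_, isConnected_connectedComponentIn_iff.2 (mem_closedBall_self hr.le),
      (connectedComponentIn_subset _ _).trans hrU, h⟩
  obtain ⟨O, x, hOc, hOo, hOp, hOd, hx, hxp⟩ := clopens hr h
  obtain ⟨E, hE1, hE2, hE⟩ := diag (ι := FB X × FB X × ℕ) (fun i =>
    {n | ∃ a ∈ ⋃₀ i.1.1 ∩ (O n ∩ closedBall p (1 / (i.2.2 + 1 : ℝ))),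
      ∃ b ∈ ⋃₀ i.2.1.1 ∩ (O n ∩ closedBall p (1 / (i.2.2 + 1 : ℝ))),
      b ∈ connectedComponentIn (O n ∩ closedBall p (1 / (i.2.2 + 1 : ℝ))) a})
  have hns : ¬ Split p (⋃ n ∈ E, O n ∩ ball p r)ᶜ := fun hs =>
    not_split_of_conn hc.isPreconnected (split_up hr hOc hOo hOp hOd (fun s t k => hE (s, t, k)) hs)
  set Z := (⋃ n ∈ E, O n ∩ ball p r)ᶜ with hZ
  have hZc : CY p Z := CY_of_closed (isOpen_biUnion fun n _ => hOo n).isClosed_compl
  have hne : ∀ n, x n ≠ p := fun n h => hOp n (h ▸ (hx n).1)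
  obtain ⟨D1, c1, a1, m1⟩ := seqset hxp hne hE1
  obtain ⟨D2, c2, a2, m2⟩ := seqset hxp hne hE2
  let V := ⋃ n ∈ Eᶜ, O n ∩ ball p r
  have hVc : CY p Vᶜ := CY_of_closed (isOpen_biUnion fun n _ => hOo n).isClosed_compl
  have hVZ : V ⊆ Z := by
    intro y hy hy'
    obtain ⟨m, hm, hym⟩ := mem_iUnion₂.1 hy
    obtain ⟨n, hn, hyn⟩ := mem_iUnion₂.1 hy'
    exact Set.disjoint_left.1 (hOd m n fun h => hm (h ▸ hn)) hym.1 hyn.1
  have hOA : (cl p Vᶜ)ᶜ ∩ rem p ⊆ cl p Z ∩ rem p := by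
    rintro z ⟨hz, hzr⟩
    refine ⟨?_, hzr⟩
    have : z ∈ cl p (Z ∪ Vᶜ) := cl_congr (A := univ) (fun y _ _ => by
      by_cases h : y ∈ V
      · exact Or.inl (hVZ h)
      · exact Or.inr h) (by rw [cl_univ]; trivial)
    rw [cl_union] at this
    exact this.resolve_right hz
  have hOne : ((cl p Vᶜ)ᶜ ∩ rem p).Nonempty := by
    obtain ⟨z, hz, hzr⟩ := acc_iff.1 a2
    refine ⟨z, Set.disjoint_left.1 (cl_disj c2 hVc ?_) hz, hzr⟩
    intro y hy hy' hv
    obtain ⟨n, hn, rfl⟩ := m2 y hy hy'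
    exact hv (mem_iUnion₂.2 ⟨n, hn, hx n⟩)
  apply hi
  refine decomp rem_closed.isCompact hc ((cl_closed Z).inter rem_closed).isCompact
    ⟨hOne.mono hOA, conn_of_not_split hZc hns⟩ ⟨inter_subset_right, fun hs => ?_⟩
    (cl_closed _).isOpen_compl hOne hOA
  obtain ⟨z, hz, hzr⟩ := acc_iff.1 a1
  refine Set.disjoint_left.1 (cl_disj c1 hZc ?_) hz (hs hzr).1
  intro y hy hy' hv
  obtain ⟨n, hn, rfl⟩ := m1 y hy hy'
  exact hv (mem_iUnion₂.2 ⟨n, hn, hx n⟩)

end Pool.Agent.H.MP_19acf5_gt
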