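import Mathlib

open Set

namespace Pool.Agent.H.MP_19acf5_gt

inductive Ad
  | cp (v : Ad)
  | tp (v : Ad) (b : Bool)
  | ch (j : ℕ) (w : List Bool)
  | ray (n : ℕ)

structure Gr (k : ℕ) where
  S : Set Ad
  lev : Ad → ℕ
  up : Ad → Bool → Ad
  up_mem : ∀ v ∈ S, ∀ b, up v b ∈ S
  lev_up : ∀ v ∈ S, ∀ b, lev (up v b) = lev v + 1
  fin : ∀ n, {v | v ∈ S ∧ lev v ≤ n}.Finite
  uni : ∀ v ∈ S, ∀ w ∈ S, lev v = lev w → k < lev v → v = w
  sur : ∀ n, ∃ v ∈ S, lev v = n

variable {k : ℕ}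

structure Ru (G : Gr k) where
  r : ℕ
  s : ℕ → Ad × Bool
  mem : ∀ j, (s j).1 ∈ G.S
  le : ∀ j, G.lev (s j).1 ≤ k
  btw : ∀ a i j (e : Ad × Bool), i < j → G.lev (s i).1 ≤ a → G.lev (s j).1 ≤ a → e.1 ∈ G.S →
    a < G.lev e.1 → G.lev e.1 ≤ k → ∃ m, i < m ∧ m < j ∧ s m = e
  pre : ∀ m ≤ k, ∃ q ≤ r, (∀ j < q, m ≤ G.lev (s j).1) ∧
    ∀ e : Ad × Bool, e.1 ∈ G.S → m ≤ G.lev e.1 → G.lev e.1 ≤ k → ∃ j < q, s j = e

theorem val_add {i t : ℕ} (h : 2 ^ (t + 1) ∣ i) : padicValNat 2 (i + 2 ^ t) = t := by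
  have h0 : i + 2 ^ t ≠ 0 := by positivity
  have h1 : 2 ^ t ∣ i + 2 ^ t := dvd_add ((pow_dvd_pow 2 (Nat.le_succ t)).trans h) dvd_rfl
  have h2 : ¬ 2 ^ (t + 1) ∣ i + 2 ^ t := by
    intro h2
    have h3 := Nat.le_of_dvd (by positivity) ((Nat.dvd_add_right h).1 h2)
    have : 2 ^ t < 2 ^ (t + 1) := Nat.pow_lt_pow_right (by norm_num) (Nat.lt_succ_self t)
    omega
  rw [padicValNat_dvd_iff_le h0] at h1 h2
  omega

theorem ru_ex (G : Gr k) : Nonempty (Ru G) := by
  classical
  have hfin : {e : Ad × Bool | e.1 ∈ G.S ∧ G.lev e.1 ≤ k}.Finite :=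
    ((G.fin k).prod (finite_univ (α := Bool))).subset fun e he => ⟨he, trivial⟩
  obtain ⟨N, f, hf⟩ := hfin.fin_embedding
  have hidx : ∀ e : Ad × Bool, ∃ i < N + 1, (e.1 ∈ G.S ∧ G.lev e.1 ≤ k → ∃ h : i < N, f ⟨i, h⟩ = e) := by
    intro e
    by_cases he : e.1 ∈ G.S ∧ G.lev e.1 ≤ k
    · have : e ∈ range f := hf ▸ he
      obtain ⟨i, hi⟩ := this
      exact ⟨i.1, by omega, fun _ => ⟨i.2, hi⟩⟩
    · exact ⟨0, by omega, fun h => absurd h he⟩
  choose idx hidx1 hidx2 using hidx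
  let rk : Ad × Bool → ℕ := fun e => (k - G.lev e.1) * (N + 1) + idx e
  have hdiv : ∀ e, rk e / (N + 1) = k - G.lev e.1 := fun e => by
    simp only [rk]
    rw [add_comm, Nat.add_mul_div_right _ _ (by omega), Nat.div_eq_of_lt (hidx1 e), zero_add]
  have hmod : ∀ e, rk e % (N + 1) = idx e := fun e => by
    simp only [rk]
    rw [add_comm, Nat.add_mul_mod_self_right, Nat.mod_eq_of_lt (hidx1 e)]
  have hinj : ∀ e e' : Ad × Bool, (e.1 ∈ G.S ∧ G.lev e.1 ≤ k) → (e'.1 ∈ G.S ∧ G.lev e'.1 ≤ k) →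
      rk e = rk e' → e = e' := by
    intro e e' he he' h
    obtain ⟨h1, h2⟩ := hidx2 e he
    obtain ⟨h3, h4⟩ := hidx2 e' he'
    have : idx e = idx e' := by rw [← hmod, h, hmod]
    rw [← h2, ← h4]
    simp only [this]
  obtain ⟨v0, hv0, hv0'⟩ := G.sur k
  let pick : ℕ → Ad × Bool := fun t =>
    if h : ∃ e : Ad × Bool, (e.1 ∈ G.S ∧ G.lev e.1 ≤ k) ∧ rk e = t then h.choose else (v0, false)
  have hp1 : ∀ t, (pick t).1 ∈ G.S ∧ G.lev (pick t).1 ≤ k := by
    intro t
    simp only [pick]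
    split_ifs with h
    · exact h.choose_spec.1
    · exact ⟨hv0, hv0'.le⟩
  have hp2 : ∀ e : Ad × Bool, e.1 ∈ G.S ∧ G.lev e.1 ≤ k → pick (rk e) = e := by
    intro e he
    have h : ∃ e' : Ad × Bool, (e'.1 ∈ G.S ∧ G.lev e'.1 ≤ k) ∧ rk e' = rk e := ⟨e, he, rfl⟩
    simp only [pick, dif_pos h]
    exact hinj _ _ h.choose_spec.1 he h.choose_spec.2
  have hp3 : ∀ t, G.lev (pick t).1 < k → rk (pick t) = t := by
    intro t
    simp only [pick]
    split_ifs with h
    · exact fun _ => h.choose_spec.2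
    · intro h'; simp only at h'; omega
  have hlt : ∀ e e' : Ad × Bool, G.lev e.1 < G.lev e'.1 → G.lev e'.1 ≤ k → rk e' < rk e := by
    intro e e' h h'
    apply Nat.lt_of_div_lt_div (c := N + 1)
    rw [hdiv, hdiv]; omega
  refine ⟨⟨2 ^ ((k + 1) * (N + 1)), fun j => pick (padicValNat 2 (j + 1)), fun j => (hp1 _).1,
    fun j => (hp1 _).2, ?_, ?_⟩⟩
  · intro a i j e hij hi hj he ha hk
    have h1 := hlt _ e (hi.trans_lt ha) hk
    have h2 := hlt _ e (hj.trans_lt ha) hk
    rw [hp3 _ (by omega)] at h1 h2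
    have d1 : 2 ^ (rk e + 1) ∣ i + 1 := (padicValNat_dvd_iff_le (by omega)).2 h1
    have d2 : 2 ^ (rk e + 1) ∣ j + 1 := (padicValNat_dvd_iff_le (by omega)).2 h2
    have d3 := Nat.le_of_dvd (by omega) (Nat.dvd_sub d2 d1)
    have d4 : 2 ^ rk e < 2 ^ (rk e + 1) := Nat.pow_lt_pow_right (by norm_num) (Nat.lt_succ_self _)
    have d5 : 0 < 2 ^ rk e := by positivity
    refine ⟨i + 2 ^ rk e, by omega, by omega, ?_⟩
    rw [show i + 2 ^ rk e + 1 = i + 1 + 2 ^ rk e by ring, val_add d1, hp2 e ⟨he, hk⟩]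
  · intro m hm
    refine ⟨2 ^ ((k - m + 1) * (N + 1)) - 1, ?_, ?_, ?_⟩
    · exact (Nat.sub_le _ _).trans (Nat.pow_le_pow_right (by norm_num)
        (Nat.mul_le_mul_right _ (by omega)))
    · intro j hj
      by_contra hc
      have h1 := hp3 (padicValNat 2 (j + 1)) (by omega)
      have h2 := hdiv (pick (padicValNat 2 (j + 1)))
      rw [h1] at h2
      have h3 : (k - m + 1) * (N + 1) ≤ padicValNat 2 (j + 1) := by
        rw [← Nat.le_div_iff_mul_le (by omega), h2]; omega
      have h4 := Nat.le_of_dvd (by omega) ((padicValNat_dvd_iff_le (p := 2) (a := j + 1) (by omega)).2 h3)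
      omega
    · intro e he hm' hk
      have h1 : rk e < (k - m + 1) * (N + 1) := by
        rw [← Nat.div_lt_iff_lt_mul (by omega), hdiv]; omega
      have h2 : 2 ^ rk e < 2 ^ ((k - m + 1) * (N + 1)) := Nat.pow_lt_pow_right (by norm_num) h1
      have d5 : 0 < 2 ^ rk e := by positivity
      refine ⟨2 ^ rk e - 1, by omega, ?_⟩
      have := val_add (i := 0) (t := rk e) (dvd_zero _)
      rw [zero_add] at this
      rw [Nat.sub_add_cancel d5, this, hp2 e ⟨he, hk⟩]

noncomputable def Gr.ru (G : Gr k) : Ru G := Classical.choice (ru_ex G)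

namespace Gr
variable (G : Gr k)

noncomputable def rt (j : ℕ) : Ad := (G.ru.s j).1
noncomputable def bt (j : ℕ) : Bool := (G.ru.s j).2
noncomputable def wd (j : ℕ) (b : Bool) : List Bool := List.replicate (k - G.lev (G.rt j)) false ++ [b]

theorem wd_len (j : ℕ) (b : Bool) : G.lev (G.rt j) + (G.wd j b).length = k + 1 := by
  have := G.ru.le j
  simp only [wd, List.length_append, List.length_replicate, List.length_singleton, rt] at *
  omega

noncomputable def lev' : Ad → ℕ
  | .cp v => G.lev v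
  | .tp _ _ => k + 1
  | .ch j w => G.lev (G.rt j) + w.length
  | .ray n => k + 2 + n

def ok : Ad → Prop
  | .cp v => v ∈ G.S ∧ G.lev v ≤ k
  | .tp v _ => v ∈ G.S ∧ G.lev v = k
  | .ch j w => j < G.ru.r ∧ G.lev (G.rt j) + w.length ≤ k + 1
  | .ray _ => True

open Classical in
noncomputable def up' : Ad → Bool → Ad
  | .cp v, b => if G.lev v < k then .cp (G.up v b) else .tp v b
  | .tp _ _, _ => .ray 0
  | .ch j w, b => if G.lev (G.rt j) + w.length = k + 1 then .ray 0 else
      if b :: w = G.wd j (!G.bt j) ∧ j + 1 < G.ru.r then .ch (j + 1) (G.wd (j + 1) (G.bt (j + 1)))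
      else .ch j (b :: w)
  | .ray n, _ => .ray (n + 1)

theorem up'_ch {j : ℕ} {w : List Bool} (b : Bool) (h : G.lev (G.rt j) + w.length < k) :
    G.up' (.ch j w) b = .ch j (b :: w) := by
  simp only [up']
  rw [if_neg (by omega), if_neg]
  rintro ⟨h1, -⟩
  have := G.wd_len j (!G.bt j)
  rw [← h1, List.length_cons] at this
  omega

theorem up'_cp {v : Ad} (b : Bool) (h : G.lev v < k) : G.up' (.cp v) b = .cp (G.up v b) := by
  simp only [up']; rw [if_pos h]

noncomputable def step : Gr (k + 1) where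
  S := {v | G.ok v}
  lev := G.lev'
  up := G.up'
  up_mem := by
    rintro (v | ⟨v, c⟩ | ⟨j, w⟩ | n) hv b
    · simp only [up', mem_setOf_eq, ok] at hv ⊢
      split_ifs with h
      · exact ⟨G.up_mem _ hv.1 _, by rw [G.lev_up _ hv.1]; omega⟩
      · exact ⟨hv.1, by omega⟩
    · trivial
    · simp only [up', mem_setOf_eq, ok] at hv ⊢
      split_ifs with h h'
      · trivial
      · exact ⟨h'.2, (G.wd_len _ _).le⟩
      · exact ⟨hv.1, by simp only [List.length_cons]; omega⟩
    · trivial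
  lev_up := by
    rintro (v | ⟨v, c⟩ | ⟨j, w⟩ | n) hv b
    · simp only [up', mem_setOf_eq, ok] at hv ⊢
      split_ifs with h
      · exact G.lev_up _ hv.1 _
      · simp only [lev']; omega
    · rfl
    · simp only [up', mem_setOf_eq, ok] at hv ⊢
      split_ifs with h h'
      · simp only [lev']; omega
      · have := G.wd_len j (!G.bt j)
        rw [← h'.1, List.length_cons] at this
        simp only [lev']; rw [G.wd_len]; omega
      · simp only [lev', List.length_cons]; omega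
    · simp only [up', lev']; omega
  fin := by
    intro n
    refine (((((G.fin k).image Ad.cp).union (((G.fin k).prod (finite_univ (α := Bool))).image
      (fun e => Ad.tp e.1 e.2))).union (((finite_lt_nat G.ru.r).prod
      (List.finite_length_le Bool (k + 1))).image (fun e => Ad.ch e.1 e.2))).union
      ((finite_le_nat n).image Ad.ray)).subset ?_
    rintro (v | ⟨v, c⟩ | ⟨j, w⟩ | m) ⟨hv, hl⟩
    · exact Or.inl (Or.inl (Or.inl ⟨v, hv, rfl⟩))
    · exact Or.inl (Or.inl (Or.inr ⟨(v, c), ⟨⟨hv.1, hv.2.le⟩, trivial⟩, rfl⟩))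
    · refine Or.inl (Or.inr ⟨(j, w), ⟨hv.1, ?_⟩, rfl⟩)
      have := hv.2
      show w.length ≤ k + 1
      omega
    · refine Or.inr ⟨m, ?_, rfl⟩
      simp only [lev'] at hl
      show m ≤ n
      omega
  uni := by
    have : ∀ v, G.ok v → k + 1 < G.lev' v → ∃ n, v = .ray n := by
      rintro (v | ⟨v, c⟩ | ⟨j, w⟩ | n) hv h
      · simp only [ok, lev'] at hv h; omega
      · simp only [ok, lev'] at hv h; omega
      · simp only [ok, lev'] at hv h; omega
      · exact ⟨n, rfl⟩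
    intro v hv w hw h h'
    obtain ⟨n, rfl⟩ := this v hv h'
    obtain ⟨m, rfl⟩ := this w hw (h ▸ h')
    simp only [lev'] at h
    rw [show n = m by omega]
  sur := by
    intro n
    rcases lt_trichotomy n (k + 1) with h | h | h
    · obtain ⟨v, hv, hv'⟩ := G.sur n
      exact ⟨.cp v, ⟨hv, by omega⟩, hv'⟩
    · obtain ⟨v, hv, hv'⟩ := G.sur k
      exact ⟨.tp v false, ⟨hv, hv'⟩, h.symm⟩
    · exact ⟨.ray (n - (k + 2)), trivial, by simp only [lev']; omega⟩

noncomputable def pr : Ad → Ad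
  | .cp v => v
  | .tp v b => G.up v b
  | .ch j w => w.foldr (fun b v => G.up v b) (G.rt j)
  | .ray n => (G.sur (k + 2 + n)).choose

theorem pr_spec {v : Ad} (hv : v ∈ G.step.S) : G.pr v ∈ G.S ∧ G.lev (G.pr v) = G.step.lev v := by
  rcases v with (v | ⟨v, c⟩ | ⟨j, w⟩ | n)
  · exact ⟨hv.1, rfl⟩
  · exact ⟨G.up_mem _ hv.1 _, by
      have := G.lev_up _ hv.1 c; rw [hv.2] at this; exact this⟩
  · clear hv
    show w.foldr (fun b v => G.up v b) (G.rt j) ∈ G.S ∧
      G.lev (w.foldr (fun b v => G.up v b) (G.rt j)) = G.lev (G.rt j) + w.length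
    induction w with
    | nil => exact ⟨G.ru.mem j, rfl⟩
    | cons b w ih =>
      exact ⟨G.up_mem _ ih.1 _, by rw [List.foldr_cons, G.lev_up _ ih.1, ih.2]; rfl⟩
  · exact (G.sur (k + 2 + n)).choose_spec

theorem pr_up {v : Ad} (hv : v ∈ G.step.S) (b : Bool) :
    G.pr (G.step.up v b) = G.up (G.pr v) b := by
  by_cases h : G.step.lev v < k
  · rcases v with (v | ⟨v, c⟩ | ⟨j, w⟩ | n)
    · show G.pr (G.up' (.cp v) b) = _
      rw [G.up'_cp b h]; rfl
    · exact absurd h (by show ¬ k + 1 < k; omega)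
    · show G.pr (G.up' (.ch j w) b) = _
      rw [G.up'_ch b h]; rfl
    · exact absurd h (by show ¬ k + 2 + n < k; omega)
  · have h1 := G.pr_spec (G.step.up_mem v hv b)
    have h2 := G.pr_spec hv
    have h3 := G.step.lev_up v hv b
    apply G.uni _ h1.1 _ (G.up_mem _ h2.1 b)
    · rw [h1.2, G.lev_up _ h2.1, h2.2, h3]
    · omega

noncomputable def sec (v : Ad) : Ad :=
  if G.lev v ≤ k then .cp v else (G.step.sur (G.lev v)).choose

theorem sec_spec {v : Ad} (hv : v ∈ G.S) : G.sec v ∈ G.step.S ∧ G.pr (G.sec v) = v := by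
  unfold sec
  split_ifs with h
  · exact ⟨⟨hv, h⟩, rfl⟩
  · have h1 := (G.step.sur (G.lev v)).choose_spec
    have h2 := G.pr_spec h1.1
    exact ⟨h1.1, G.uni _ h2.1 _ hv (h2.2.trans h1.2) (by omega)⟩

theorem sec_up {v : Ad} (hv : v ∈ G.S) (b : Bool) (h : G.lev v < k) :
    G.sec (G.up v b) = G.step.up (G.sec v) b := by
  unfold sec
  rw [if_pos h.le, if_pos (by rw [G.lev_up _ hv]; omega)]
  exact (G.up'_cp b h).symm

def Inv (U : Ad → Bool → Prop) (l : ℕ) (g : Ad → Bool) : Prop :=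
  ∀ v ∈ G.S, ∀ b, G.lev v < l → ¬ U v b → g (G.up v b) = g v

end Gr

theorem alpha (low cut : ℕ → Prop) (en ex : ℕ → Bool) (h : ∀ i j, i < j → low i → low j →
    ∃ m, i < m ∧ m < j ∧ cut m) :
    ∃ α : ℕ → Bool, (∀ j, low j → α j = en j ∧ α (j + 1) = ex j) ∧
      ∀ j, ¬ low j → ¬ cut j → α (j + 1) = α j := by
  classical
  let fr : ℕ → Prop := fun m => ¬ low m ∧ ¬ cut m
  let A : ℕ → Prop := fun j => ∃ i, low i ∧ ((i < j ∧ (∀ m, i < m → m < j → fr m) ∧ ex i = true) ∨
    (j ≤ i ∧ (∀ m, j ≤ m → m < i → fr m) ∧ en i = true))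
  refine ⟨fun j => decide (A j), fun j hj => ⟨?_, ?_⟩, fun j h1 h2 => ?_⟩
  · rw [Bool.eq_iff_iff, decide_eq_true_iff]
    constructor
    · rintro ⟨i, hi, ⟨h1, h2, -⟩ | ⟨h1, h2, h3⟩⟩
      · obtain ⟨m, a, b, c⟩ := h i j h1 hi hj
        exact absurd c (h2 m a b).2
      · rcases h1.eq_or_lt with rfl | h1
        · exact h3
        · exact absurd hj (h2 j le_rfl h1).1
    · exact fun h => ⟨j, hj, Or.inr ⟨le_rfl, fun m a b => by omega, h⟩⟩
  · rw [Bool.eq_iff_iff, decide_eq_true_iff]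
    constructor
    · rintro ⟨i, hi, ⟨h1, h2, h3⟩ | ⟨h1, h2, -⟩⟩
      · rcases (Nat.lt_succ_iff.1 h1).eq_or_lt with rfl | h1
        · exact h3
        · exact absurd hj (h2 j h1 (by omega)).1
      · obtain ⟨m, a, b, c⟩ := h j i h1 hj hi
        exact absurd c (h2 m a b).2
    · exact fun h => ⟨j, hj, Or.inl ⟨by omega, fun m a b => by omega, h⟩⟩
  · rw [decide_eq_decide]
    have hf : fr j := ⟨h1, h2⟩
    constructor
    · rintro ⟨i, hi, ⟨a, b, c⟩ | ⟨a, b, c⟩⟩
      · have : i ≠ j := fun e => h1 (e ▸ hi)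
        exact ⟨i, hi, Or.inl ⟨by omega, fun m x y => b m x (by omega), c⟩⟩
      · refine ⟨i, hi, Or.inr ⟨by omega, fun m x y => ?_, c⟩⟩
        rcases x.eq_or_lt with rfl | x
        · exact hf
        · exact b m x y
    · rintro ⟨i, hi, ⟨a, b, c⟩ | ⟨a, b, c⟩⟩
      · refine ⟨i, hi, Or.inl ⟨by omega, fun m x y => ?_, c⟩⟩
        rcases (Nat.lt_succ_iff.1 y).eq_or_lt with rfl | y
        · exact hf
        · exact b m x y
      · have : i ≠ j := fun e => h1 (e ▸ hi)
        exact ⟨i, hi, Or.inr ⟨by omega, fun m x y => b m (by omega) y, c⟩⟩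

namespace Gr
variable (G : Gr k)

theorem wd_last (j : ℕ) (b : Bool) : (G.wd j b).getLast? = some b := by simp [wd]

theorem ext_base (U : Ad → Bool → Prop) (a : ℕ) (e : Ad × Bool) (he : e.1 ∈ G.S)
    (ha : a < G.lev e.1) (hk : G.lev e.1 ≤ k) (hU : ∀ v ∈ G.step.S, G.pr v = e.1 → U v e.2)
    (g : Ad → Bool) (hg : G.step.Inv U k g) :
    ∃ g', G.step.Inv U (k + 1) g' ∧ ∀ v ∈ G.step.S, G.step.lev v ≤ a → g' v = g v := by
  classical
  obtain ⟨α, h1, h2⟩ := alpha (fun j => G.lev (G.rt j) ≤ a) (fun j => G.ru.s j = e)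
    (fun j => g (.ch j (G.wd j (G.bt j)).tail)) (fun j => g (.ch j (G.wd j (!G.bt j)).tail))
    (fun i j hij hi hj => G.ru.btw a i j e hij hi hj he ha hk)
  let g' : Ad → Bool := fun v => match v with
    | .cp v => g (.cp v)
    | .tp v _ => g (.cp v)
    | .ch j w => if G.lev (G.rt j) ≤ a then
        (if G.lev (G.rt j) + w.length ≤ k then g (.ch j w) else g (.ch j w.tail))
        else if w.getLast? = some (G.bt j) then α j else α (j + 1)
    | .ray _ => false
  have hen : ∀ j, g' (.ch j (G.wd j (G.bt j))) = α j := by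
    intro j
    simp only [g']
    split_ifs with c1 c2 c3
    · have := G.wd_len j (G.bt j); omega
    · exact (h1 j c1).1.symm
    · rfl
    · exact absurd (G.wd_last _ _) c3
  have hcons : ∀ j w b, j < G.ru.r → G.lev (G.rt j) + w.length ≤ k → ¬ U (.ch j w) b →
      g' (.ch j (b :: w)) = g' (.ch j w) := by
    intro j w b hj hl hu
    simp only [g']
    by_cases c1 : G.lev (G.rt j) ≤ a
    · rw [if_pos c1, if_pos c1, if_pos hl]
      split_ifs with c2
      · simp only [List.length_cons] at c2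
        rw [← G.up'_ch b (by omega)]
        exact hg (.ch j w) ⟨hj, by omega⟩ b (by show G.lev (G.rt j) + w.length < k; omega) hu
      · rfl
    · rw [if_neg c1, if_neg c1]
      rcases w with _ | ⟨c, w⟩
      · simp only [List.getLast?_singleton, Option.some.injEq, List.getLast?_nil, reduceCtorEq,
          if_false]
        split_ifs with c2
        · refine (h2 j c1 fun hc => hu ?_).symm
          have := hU (.ch j []) ⟨hj, by omega⟩ (by show (G.ru.s j).1 = _; rw [hc])
          rwa [← hc, ← show b = (G.ru.s j).2 from c2] at this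
        · rfl
      · rw [List.getLast?_cons_cons]
  refine ⟨g', ?_, ?_⟩
  · rintro (v | ⟨v, c⟩ | ⟨j, w⟩ | n) hv b hl hu
    · show g' (G.up' (.cp v) b) = g (.cp v)
      by_cases h : G.lev v < k
      · rw [G.up'_cp b h]
        show g (.cp _) = _
        rw [← G.up'_cp b h]
        exact hg _ hv b h hu
      · simp only [up']; rw [if_neg h]
    · exact absurd hl (lt_irrefl _)
    · have hl' : G.lev (G.rt j) + w.length < k + 1 := hl
      show g' (G.up' (.ch j w) b) = _
      simp only [up']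
      rw [if_neg (by omega)]
      split_ifs with h
      · rw [hen]
        simp only [g']
        by_cases c1 : G.lev (G.rt j) ≤ a
        · rw [if_pos c1, if_pos (by omega), (h1 j c1).2, ← h.1]; rfl
        · rw [if_neg c1, if_neg]
          rcases w with _ | ⟨c, w⟩
          · simp
          · rw [← List.getLast?_cons_cons (a := b), h.1, G.wd_last]; simp
      · exact hcons j w b hv.1 (by omega) hu
    · exact absurd hl (by show ¬ k + 2 + n < k + 1; omega)
  · rintro (v | ⟨v, c⟩ | ⟨j, w⟩ | n) hv hl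
    · rfl
    · exact absurd hl (by show ¬ k + 1 ≤ a; omega)
    · have hl' : G.lev (G.rt j) + w.length ≤ a := hl
      simp only [g']
      rw [if_pos (by omega), if_pos (by omega)]
    · exact absurd hl (by show ¬ k + 2 + n ≤ a; omega)

theorem inv_cp {U : Ad → Bool → Prop} {l : ℕ} (hl : l ≤ k) {g : Ad → Bool} (hg : G.step.Inv U l g) :
    G.Inv (fun v b => U (.cp v) b) l (fun v => g (.cp v)) := by
  intro v hv b h hu
  show g (.cp _) = _
  rw [← G.up'_cp b (by omega)]
  exact hg (.cp v) ⟨hv, by omega⟩ b h hu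

theorem ext_step (U : Ad → Bool → Prop) (a l : ℕ) (hl : l + 1 ≤ k) (ha : a ≤ l)
    (g : Ad → Bool) (hg : G.step.Inv U l g) (g0 : Ad → Bool)
    (h0 : G.Inv (fun v b => U (.cp v) b) (l + 1) g0) (h0' : ∀ v ∈ G.S, G.lev v ≤ a → g0 v = g (.cp v)) :
    ∃ g', G.step.Inv U (l + 1) g' ∧ ∀ v ∈ G.step.S, G.step.lev v ≤ a → g' v = g v := by
  let g' : Ad → Bool := fun v => match v with
    | .cp v => g0 v
    | .tp _ _ => false
    | .ch j w => if G.lev (G.rt j) + w.length ≤ l then g (.ch j w) else g (.ch j w.tail)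
    | .ray _ => false
  refine ⟨g', ?_, ?_⟩
  · rintro (v | ⟨v, c⟩ | ⟨j, w⟩ | n) hv b hl' hu
    · have h : G.lev v < l + 1 := hl'
      show g' (G.up' (.cp v) b) = g0 v
      rw [G.up'_cp b (by omega)]
      exact h0 v hv.1 b h hu
    · exact absurd hl' (by show ¬ k + 1 < l + 1; omega)
    · have h : G.lev (G.rt j) + w.length < l + 1 := hl'
      show g' (G.up' (.ch j w) b) = _
      rw [G.up'_ch b (by omega)]
      simp only [g']
      rw [if_pos (show G.lev (G.rt j) + w.length ≤ l by omega)]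
      split_ifs with c2
      · simp only [List.length_cons] at c2
        rw [← G.up'_ch b (by omega)]
        exact hg (.ch j w) hv b (by show G.lev (G.rt j) + w.length < l; omega) hu
      · rfl
    · exact absurd hl' (by show ¬ k + 2 + n < l + 1; omega)
  · rintro (v | ⟨v, c⟩ | ⟨j, w⟩ | n) hv hl'
    · exact h0' v hv.1 hl'
    · exact absurd hl' (by show ¬ k + 1 ≤ a; omega)
    · have h : G.lev (G.rt j) + w.length ≤ a := hl'
      simp only [g']
      rw [if_pos (by omega)]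
    · exact absurd hl' (by show ¬ k + 2 + n ≤ a; omega)

/-- the chain is connected above level `m` -/
theorem chain (m : ℕ) (hm : m ≤ k) (c : Ad → Prop)
    (hc : ∀ v ∈ G.step.S, ∀ b, m ≤ G.step.lev v → G.step.lev v ≤ k → (c (G.step.up v b) ↔ c v))
    {v w : Ad} (hv : v ∈ G.S) (hw : w ∈ G.S) (h1 : m ≤ G.lev v) (h2 : G.lev v ≤ k)
    (h3 : m ≤ G.lev w) (h4 : G.lev w ≤ k) :
    ∃ v' ∈ G.step.S, ∃ w' ∈ G.step.S, G.pr v' = v ∧ G.pr w' = w ∧ (c v' ↔ c w') := by
  obtain ⟨q, hq, hq1, hq2⟩ := G.ru.pre m hm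
  have hblk : ∀ j < q, ∀ w : List Bool, G.lev (G.rt j) + w.length ≤ k → (c (.ch j w) ↔ c (.ch j [])) := by
    intro j hj w
    induction w with
    | nil => exact fun _ => Iff.rfl
    | cons b w ih =>
      intro h
      simp only [List.length_cons] at h
      rw [← ih (by omega), ← G.up'_ch b (by omega)]
      exact hc (.ch j w) ⟨by omega, by omega⟩ b ((hq1 j hj).trans (Nat.le_add_right _ _))
        (by show G.lev (G.rt j) + w.length ≤ k; omega)
  have htop : ∀ j < q, ∀ c0 : Bool, ∃ b w, G.wd j c0 = b :: w ∧ G.lev (G.rt j) + w.length = k ∧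
      (c (G.up' (.ch j w) b) ↔ c (.ch j [])) := by
    intro j hj c0
    have hl := G.wd_len j c0
    rcases hw : G.wd j c0 with _ | ⟨b, w⟩
    · have := G.wd_last j c0; rw [hw] at this; simp at this
    · rw [hw, List.length_cons] at hl
      refine ⟨b, w, rfl, by omega, ?_⟩
      rw [← hblk j hj w (by omega)]
      exact hc (.ch j w) ⟨by omega, by omega⟩ b ((hq1 j hj).trans (Nat.le_add_right _ _))
        (by show G.lev (G.rt j) + w.length ≤ k; omega)
  have hall : ∀ j < q, (c (.ch j []) ↔ c (.ch 0 [])) := by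
    intro j
    induction j with
    | zero => exact fun _ => Iff.rfl
    | succ j ih =>
      intro hj
      rw [← ih (by omega)]
      obtain ⟨b, w, e1, e2, e3⟩ := htop j (by omega) (!G.bt j)
      obtain ⟨b', w', e1', e2', e3'⟩ := htop (j + 1) hj (G.bt (j + 1))
      have f1 : G.up' (.ch j w) b = .ch (j + 1) (G.wd (j + 1) (G.bt (j + 1))) := by
        simp only [up']
        rw [if_neg (by omega), if_pos (show _ ∧ _ from ⟨e1.symm, by omega⟩)]
      have f2 : G.up' (.ch (j + 1) w') b' = .ch (j + 1) (G.wd (j + 1) (G.bt (j + 1))) := by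
        simp only [up']
        rw [if_neg (by omega), if_neg, e1']
        rintro ⟨h, -⟩
        have a1 := G.wd_last (j + 1) (G.bt (j + 1))
        rw [e1', h, G.wd_last] at a1
        simp at a1
      rw [← e3, ← e3', f1, f2]
  obtain ⟨i, hi, hi'⟩ := hq2 (v, false) hv h1 h2
  obtain ⟨j, hj, hj'⟩ := hq2 (w, false) hw h3 h4
  have hok : ∀ j < q, Ad.ch j [] ∈ G.step.S := fun j hj =>
    ⟨by omega, by have := G.ru.le j; show G.lev (G.ru.s j).1 + 0 ≤ k + 1; omega⟩
  exact ⟨.ch i [], hok i hi, .ch j [], hok j hj, by show (G.ru.s i).1 = v; rw [hi'],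
    by show (G.ru.s j).1 = w; rw [hj'], by rw [hall i hi, hall j hj]⟩

/-- two new blocks over a vertex -/
theorem two (U : Ad → Bool → Prop) (l : ℕ) (hl : l ≤ k) (g : Ad → Bool) (hg : G.step.Inv U l g)
    {v : Ad} (hv : v ∈ G.S) (h2 : G.lev v < k) :
    ∃ g', G.step.Inv U l g' ∧ (∀ u ∈ G.step.S, G.step.lev u < G.lev v → g' u = g u) ∧
      ∀ c : Bool, ∃ v' ∈ G.step.S, G.pr v' = v ∧ g' v' = c ∧ ∀ b, g' (G.step.up v' b) = c := by
  classical
  obtain ⟨q, hq, -, hq2⟩ := G.ru.pre 0 (Nat.zero_le _)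
  obtain ⟨i, hi, hi'⟩ := hq2 (v, false) hv (Nat.zero_le _) h2.le
  obtain ⟨j, hj, hj'⟩ := hq2 (v, true) hv (Nat.zero_le _) h2.le
  have hij : i ≠ j := by
    rintro rfl
    rw [hi'] at hj'; simp at hj'
  have ri : G.rt i = v := by show (G.ru.s i).1 = v; rw [hi']
  have rj : G.rt j = v := by show (G.ru.s j).1 = v; rw [hj']
  let g' : Ad → Bool := fun u => match u with
    | .ch m w => if m = i then false else if m = j then true else g (.ch m w)
    | u => g u
  refine ⟨g', ?_, ?_, ?_⟩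
  · rintro (u | ⟨u, c⟩ | ⟨m, w⟩ | n) hu b hl' hU
    · have h : G.lev u < l := hl'
      have := hg _ hu b hl' hU
      show g' (G.up' (.cp u) b) = g (.cp u)
      change g (G.up' (.cp u) b) = g (.cp u) at this
      rw [G.up'_cp b (by omega)] at this ⊢
      exact this
    · exact absurd hl' (by show ¬ k + 1 < l; omega)
    · have h : G.lev (G.rt m) + w.length < l := hl'
      have := hg _ hu b hl' hU
      show g' (G.up' (.ch m w) b) = _
      change g (G.up' (.ch m w) b) = _ at this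
      rw [G.up'_ch b (by omega)] at this ⊢
      simp only [g', this]
    · exact absurd hl' (by show ¬ k + 2 + n < l; omega)
  · rintro (u | ⟨u, c⟩ | ⟨m, w⟩ | n) hu hl'
    · rfl
    · rfl
    · have h : G.lev (G.rt m) + w.length < G.lev v := hl'
      simp only [g']
      rw [if_neg, if_neg]
      · rintro rfl; rw [rj] at h; omega
      · rintro rfl; rw [ri] at h; omega
    · rfl
  · intro c
    cases c
    · refine ⟨.ch i [], ⟨by omega, by rw [ri]; simp only [List.length_nil]; omega⟩, ri, by simp [g'], fun b => ?_⟩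
      show g' (G.up' (.ch i []) b) = _
      rw [G.up'_ch b (by rw [ri]; simpa using h2)]; simp [g']
    · refine ⟨.ch j [], ⟨by omega, by rw [rj]; simp only [List.length_nil]; omega⟩, rj,
        by simp [g', hij.symm], fun b => ?_⟩
      show g' (G.up' (.ch j []) b) = _
      rw [G.up'_ch b (by rw [rj]; simpa using h2)]; simp [g', hij.symm]

end Gr

end Pool.Agent.H.MP_19acf5_gt
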