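import Pool.Agent.H.MP_19acf5_gt.C

open Set Filter Topology

namespace Pool.Agent.H.MP_19acf5_gt

def G0 : Gr 0 where
  S := range Ad.ray
  lev := fun v => match v with
    | .ray n => n
    | _ => 0
  up := fun v _ => match v with
    | .ray n => .ray (n + 1)
    | v => v
  up_mem := by rintro _ ⟨n, rfl⟩ b; exact ⟨n + 1, rfl⟩
  lev_up := by rintro _ ⟨n, rfl⟩ b; rfl
  fin := fun n => ((finite_le_nat n).image Ad.ray).subset (by
    rintro _ ⟨⟨m, rfl⟩, h⟩; exact ⟨m, h, rfl⟩)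
  uni := by
    rintro _ ⟨n, rfl⟩ _ ⟨m, rfl⟩ h _
    exact congrArg Ad.ray h
  sur := fun n => ⟨.ray n, ⟨n, rfl⟩, rfl⟩

noncomputable def G : (k : ℕ) → Gr k
  | 0 => G0
  | k + 1 => (G k).step

instance : TopologicalSpace Ad := ⊥
instance : DiscreteTopology Ad := ⟨rfl⟩

abbrev C := {x : ℕ → Ad // (∀ k, x k ∈ (G k).S) ∧ ∀ k, (G k).pr (x (k + 1)) = x k}

noncomputable def lev (x : C) : ℕ := (G 0).lev (x.1 0)

theorem lev_eq (x : C) (k : ℕ) : (G k).lev (x.1 k) = lev x := by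
  induction k with
  | zero => rfl
  | succ k ih => rw [← ih, ← x.2.2 k]; exact ((G k).pr_spec (x.2.1 (k + 1))).2.symm

noncomputable def up (x : C) (b : Bool) : C :=
  ⟨fun k => (G k).up (x.1 k) b, fun k => (G k).up_mem _ (x.2.1 k) b, fun k => by
    show _ = (G k).up (x.1 k) b
    rw [← x.2.2 k]; exact (G k).pr_up (x.2.1 (k + 1)) b⟩

theorem lev_up (x : C) (b : Bool) : lev (up x b) = lev x + 1 := (G 0).lev_up _ (x.2.1 0) b

theorem agree {x y : C} {j k : ℕ} (hjk : j ≤ k) (h : x.1 k = y.1 k) : x.1 j = y.1 j := by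
  induction hjk with
  | refl => exact h
  | step _ ih => apply ih; rw [← x.2.2, ← y.2.2]; exact congrArg _ h

theorem lev_of_agree {x y : C} {k : ℕ} (h : x.1 k = y.1 k) : lev x = lev y := by
  rw [← lev_eq x k, h, lev_eq]

noncomputable def dD : ℕ → ℕ → Ad → Ad
  | _, 0, v => v
  | j, d + 1, v => (G j).pr (dD (j + 1) d v)

noncomputable def uU (k : ℕ) : ℕ → Ad → Ad
  | 0, v => v
  | d + 1, v => (G (k + d)).sec (uU k d v)

def SS (n : ℕ) : Set Ad := (G n).S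

theorem dD_mem (d : ℕ) : ∀ j v, v ∈ SS (j + d) → dD j d v ∈ SS j := by
  induction d with
  | zero => exact fun j v h => h
  | succ d ih =>
    intro j v h
    rw [show j + (d + 1) = j + 1 + d by ring] at h
    exact ((G j).pr_spec (ih _ _ h)).1

theorem uU_mem {k : ℕ} {v : Ad} (hv : v ∈ SS k) (d : ℕ) : uU k d v ∈ SS (k + d) := by
  induction d with
  | zero => exact hv
  | succ d ih => exact ((G (k + d)).sec_spec ih).1

noncomputable def lf (k : ℕ) (v : Ad) (hv : v ∈ (G k).S) : C :=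
  ⟨fun j => dD j (k - j) (uU k (j - k) v), fun j => by
    apply dD_mem
    rw [show j + (k - j) = k + (j - k) by omega]
    exact uU_mem hv _, fun j => by
    rcases lt_or_ge j k with h | h
    · simp only
      rw [show k - j = k - (j + 1) + 1 by omega, show j + 1 - k = j - k by omega]; rfl
    · obtain ⟨d, rfl⟩ := Nat.exists_eq_add_of_le h
      simp only
      rw [show k - (k + d + 1) = 0 by omega, show k - (k + d) = 0 by omega,
        show k + d + 1 - k = d + 1 by omega, show k + d - k = d by omega]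
      exact ((G (k + d)).sec_spec (uU_mem hv d)).2⟩

theorem lf_hi (k : ℕ) (v : Ad) (hv : v ∈ (G k).S) (d : ℕ) : (lf k v hv).1 (k + d) = uU k d v := by
  simp only [lf]
  rw [show k - (k + d) = 0 by omega, show k + d - k = d by omega]; rfl

theorem lf_self (k : ℕ) (v : Ad) (hv : v ∈ (G k).S) : (lf k v hv).1 k = v := lf_hi k v hv 0

theorem lf_pr (k : ℕ) (v : Ad) (hv : v ∈ (G (k + 1)).S) : (lf (k + 1) v hv).1 k = (G k).pr v := by
  rw [← (lf (k + 1) v hv).2.2, lf_self]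

theorem lev_lf (k : ℕ) (v : Ad) (hv : v ∈ (G k).S) : lev (lf k v hv) = (G k).lev v := by
  rw [← lev_eq _ k, lf_self]

theorem lf_up (k : ℕ) (v : Ad) (hv : v ∈ (G k).S) (b : Bool) (h : (G k).lev v < k) :
    lf k ((G k).up v b) ((G k).up_mem v hv b) = up (lf k v hv) b := by
  have key : ∀ d, uU k d ((G k).up v b) = (G (k + d)).up (uU k d v) b := by
    intro d
    induction d with
    | zero => rfl
    | succ d ih =>
      show (G (k + d)).sec _ = _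
      rw [ih]
      refine (G (k + d)).sec_up (uU_mem hv d) b ?_
      rw [← lf_hi k v hv d, lev_eq, lev_lf]; omega
  apply Subtype.ext
  funext j
  apply agree (k := k + j) (by omega)
  rw [lf_hi, key]
  show _ = (G (k + j)).up ((lf k v hv).1 (k + j)) b
  rw [lf_hi]

def CInv (U : C → Bool → Prop) (l : ℕ) (g : C → Bool) : Prop :=
  (∃ K, ∀ x y, lev x ≤ l → x.1 K = y.1 K → g x = g y) ∧
    ∀ x b, lev x < l → ¬ U x b → g (up x b) = g x

def UK (U : C → Bool → Prop) (K : ℕ) (v : Ad) (b : Bool) : Prop := ∀ x : C, x.1 K = v → U x b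

variable {U : C → Bool → Prop}

theorem CInv.mono {l l' : ℕ} {g : C → Bool} (h : CInv U l g) (hl : l' ≤ l) : CInv U l' g := by
  obtain ⟨⟨K, hK⟩, h2⟩ := h
  exact ⟨⟨K, fun x y hx => hK x y (hx.trans hl)⟩, fun x b hx => h2 x b (hx.trans_le hl)⟩

theorem CInv.down {l : ℕ} {g : C → Bool} (h : CInv U l g) (K0 : ℕ) :
    ∃ d, ∃ g0 : Ad → Bool, (G (K0 + d)).Inv (UK U (K0 + d)) l g0 ∧
      ∀ x, lev x ≤ l → g x = g0 (x.1 (K0 + d)) := by
  classical
  obtain ⟨⟨K, hK⟩, h2⟩ := h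
  let g0 : Ad → Bool := fun v => if hv : v ∈ (G (K0 + K)).S then g (lf _ v hv) else false
  have h1 : ∀ x, lev x ≤ l → g x = g0 (x.1 (K0 + K)) := by
    intro x hx
    simp only [g0, dif_pos (x.2.1 (K0 + K))]
    exact hK _ _ hx (agree (k := K0 + K) (by omega) (lf_self _ _ _).symm)
  refine ⟨K, g0, ?_, h1⟩
  intro v hv b hl hu
  simp only [UK, not_forall] at hu
  obtain ⟨x, rfl, hx⟩ := hu
  rw [lev_eq] at hl
  rw [← h1 x hl.le, ← h2 x b hl hx, h1 (up x b) (by rw [lev_up]; omega)]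
  rfl

theorem CInv.upw {l K : ℕ} {g0 : Ad → Bool} (h : (G K).Inv (UK U K) l g0) :
    CInv U l (fun x => g0 (x.1 K)) :=
  ⟨⟨K, fun _ _ _ h => congrArg g0 h⟩, fun x b hl hu =>
    h _ (x.2.1 K) b (by rwa [lev_eq]) fun hc => hu (hc x rfl)⟩

noncomputable def dn (l : ℕ) : ℕ → Ad → Ad
  | 0, v => (G l).pr v
  | d + 1, v => dn l d ((G (l + 1 + d)).pr v)

theorem dn_x (x : C) (l d : ℕ) : dn l d (x.1 (l + 1 + d)) = x.1 l := by
  induction d with
  | zero => exact x.2.2 l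
  | succ d ih => rw [← ih, ← x.2.2 (l + 1 + d)]; rfl

theorem ext_fin (l a : ℕ) (e : Ad × Bool) (he : e.1 ∈ (G l).S) (ha : a < (G l).lev e.1)
    (hk : (G l).lev e.1 ≤ l) (d : ℕ) : ∀ (U : Ad → Bool → Prop) (g : Ad → Bool),
    (∀ v ∈ (G (l + 1 + d)).S, dn l d v = e.1 → U v e.2) → (G (l + 1 + d)).Inv U l g →
    ∃ g', (G (l + 1 + d)).Inv U (l + 1) g' ∧
      ∀ v ∈ (G (l + 1 + d)).S, (G (l + 1 + d)).lev v ≤ a → g' v = g v := by
  induction d with
  | zero => exact fun U g hU hg => (G l).ext_base U a e he ha hk hU g hg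
  | succ d ih =>
    intro U g hU hg
    obtain ⟨g0, h0, h0'⟩ := ih (fun v b => U (.cp v) b) (fun v => g (.cp v)) (fun v hv h => by
      refine hU (.cp v) ⟨hv, ?_⟩ h
      have h1 := dn_x (lf _ v hv) l d
      rw [lf_self, h] at h1
      show (G (l + 1 + d)).lev v ≤ l + 1 + d
      rw [← lev_lf _ v hv, ← lev_eq _ l, ← h1]; omega) ((G (l + 1 + d)).inv_cp (by omega) hg)
    exact (G (l + 1 + d)).ext_step U a l (by omega) (by omega) g hg g0 h0 h0'

theorem CInv.ext {l : ℕ} {g : C → Bool} (h : CInv U l g) {x0 : C} {b0 : Bool} {κ a : ℕ}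
    (hκ : κ ≤ l) (hl : lev x0 ≤ l) (ha : a < lev x0) (hU : ∀ x : C, x.1 κ = x0.1 κ → U x b0) :
    ∃ g', CInv U (l + 1) g' ∧ ∀ x, lev x ≤ a → g' x = g x := by
  obtain ⟨d, g0, h1, h2⟩ := h.down (l + 1)
  obtain ⟨g', h3, h4⟩ := ext_fin l a (x0.1 l, b0) (x0.2.1 l) (by rwa [lev_eq]) (by rwa [lev_eq]) d
    _ g0 (fun v _ hv x hx => hU x (agree hκ (by rw [← dn_x x l d, hx, hv]))) h1
  exact ⟨_, CInv.upw h3, fun x hx => by
    rw [h2 x (by omega)]; exact h4 _ (x.2.1 _) (by rwa [lev_eq])⟩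

theorem CInv.ext' {l : ℕ} {g : C → Bool} (h : CInv U l g) {x0 : C} {b0 : Bool} {κ a : ℕ}
    (hκ : κ ≤ l) (hl : lev x0 ≤ l) (ha : a < lev x0) (hU : ∀ x : C, x.1 κ = x0.1 κ → U x b0)
    (d : ℕ) : ∃ g', CInv U (l + d) g' ∧ ∀ x, lev x ≤ a → g' x = g x := by
  induction d with
  | zero => exact ⟨g, h, fun _ _ => rfl⟩
  | succ d ih =>
    obtain ⟨g1, h1, h2⟩ := ih
    obtain ⟨g2, h3, h4⟩ := h1.ext (hκ.trans (Nat.le_add_right _ _)) (hl.trans (Nat.le_add_right _ _)) ha hU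
    exact ⟨g2, h3, fun x hx => (h4 x hx).trans (h2 x hx)⟩

theorem CInv.two {l : ℕ} {g : C → Bool} (h : CInv U l g) (x0 : C) (κ : ℕ) (hl : lev x0 < l) :
    ∃ g', CInv U l g' ∧ (∀ x, lev x < lev x0 → g' x = g x) ∧
      ∀ c, ∃ x : C, x.1 κ = x0.1 κ ∧ g' x = c ∧ ∀ b, g' (up x b) = c := by
  obtain ⟨d, g0, h1, h2⟩ := h.down (κ + l + 1)
  rw [show κ + l + 1 + d = κ + l + d + 1 by ring] at h1 h2
  obtain ⟨g', h3, h4, h5⟩ := (G (κ + l + d)).two _ l (by omega) g0 h1 (x0.2.1 _)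
    (by rw [lev_eq]; omega)
  refine ⟨_, CInv.upw (K := κ + l + d + 1) h3, fun x hx => ?_, fun c => ?_⟩
  · rw [h2 x (by omega)]
    exact h4 _ (x.2.1 (κ + l + d + 1)) (by
      rw [lev_eq x0]; exact (lev_eq x (κ + l + d + 1)).trans_lt hx)
  · obtain ⟨v, hv, e1, e2, e3⟩ := h5 c
    refine ⟨lf (κ + l + d + 1) v hv, agree (k := κ + l + d) (by omega) ?_, ?_, fun b => ?_⟩
    · exact (lf_pr _ v hv).trans e1
    · exact (congrArg g' (lf_self (κ + l + d + 1) v hv)).trans e2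
    · show g' ((G (κ + l + d + 1)).up ((lf (κ + l + d + 1) v hv).1 _) b) = c
      rw [lf_self (κ + l + d + 1) v hv]; exact e3 b

theorem cutC (U : C → Bool → Prop) (Vp : C → Prop)
    (hW : ∀ n, ∃ (x0 : C) (b0 : Bool) (κ : ℕ), n ≤ lev x0 ∧ ∀ x : C, x.1 κ = x0.1 κ → U x b0)
    (hV : ∀ n, ∃ (x0 : C) (κ : ℕ), n ≤ lev x0 ∧ ∀ x : C, x.1 κ = x0.1 κ → Vp x) :
    ∃ f : C → Bool, (∀ x, ∃ K, ∀ y : C, y.1 K = x.1 K → f y = f x) ∧
      (∀ x b, ¬ U x b → f (up x b) = f x) ∧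
      ∀ c n, ∃ x, n ≤ lev x ∧ Vp x ∧ f x = c ∧ ∀ b, f (up x b) = c := by
  let Good : ℕ × (C → Bool) → Prop := fun s =>
    ∀ l, ∃ g, CInv U l g ∧ ∀ x, lev x ≤ s.1 → g x = s.2 x
  have step : ∀ s : {s // Good s}, ∃ t : {s // Good s}, s.1.1 < t.1.1 ∧
      (∀ x, lev x ≤ s.1.1 → t.1.2 x = s.1.2 x) ∧
      ∀ c, ∃ x, s.1.1 < lev x ∧ lev x < t.1.1 ∧ Vp x ∧ t.1.2 x = c ∧ ∀ b, t.1.2 (up x b) = c := by
    rintro ⟨⟨a, g⟩, hg⟩
    obtain ⟨y0, κ', hy, hy'⟩ := hV (a + 1)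
    obtain ⟨x0, b0, κ, hx, hx'⟩ := hW (lev y0 + 2)
    obtain ⟨g1, h1, h2⟩ := hg (κ + lev x0)
    obtain ⟨g2, h3, h4, h5⟩ := h1.two y0 κ' (by omega)
    refine ⟨⟨(lev y0 + 1, g2), fun l => ?_⟩, by simp only; omega, fun x hx => ?_, fun c => ?_⟩
    · obtain ⟨g3, h6, h7⟩ := h3.ext' (a := lev y0 + 1) (Nat.le_add_right _ _) (Nat.le_add_left _ _)
        (by omega) hx' l
      exact ⟨g3, h6.mono (Nat.le_add_left _ _), h7⟩
    · exact (h4 x (by simp only at hx; omega)).trans (h2 x hx)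
    · obtain ⟨x, e1, e2, e3⟩ := h5 c
      have := lev_of_agree e1
      exact ⟨x, by simp only; omega, by simp only; omega, hy' x e1, e2, e3⟩
  choose nx h1 h2 h3 using step
  let s0 : {s // Good s} := ⟨(0, fun _ => false), fun l =>
    ⟨fun _ => false, ⟨⟨0, fun _ _ _ _ => rfl⟩, fun _ _ _ _ => rfl⟩, fun _ _ => rfl⟩⟩
  let s : ℕ → {s // Good s} := fun i => nx^[i] s0
  have hs : ∀ i, s (i + 1) = nx (s i) := fun i => Function.iterate_succ_apply' _ _ _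
  have hm : StrictMono fun i => (s i).1.1 := strictMono_nat_of_lt_succ fun i => by
    rw [hs]; exact h1 _
  have hge : ∀ i, i ≤ (s i).1.1 := fun i => hm.le_apply
  have hco : ∀ i j, i ≤ j → ∀ x, lev x ≤ (s i).1.1 → (s j).1.2 x = (s i).1.2 x := by
    intro i j hij x hx
    induction hij with
    | refl => rfl
    | step h ih => rw [Nat.succ_eq_add_one, hs, h2 _ x (hx.trans (hm.monotone h)), ih]
  have hf : ∀ j x, lev x ≤ (s j).1.1 → (s (lev x)).1.2 x = (s j).1.2 x := by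
    intro j x hx
    rw [← hco _ (lev x + j) (by omega) x (hge _), hco j (lev x + j) (by omega) x hx]
  refine ⟨fun x => (s (lev x)).1.2 x, fun x => ?_, fun x b hu => ?_, fun c n => ?_⟩
  · obtain ⟨g, ⟨⟨K, hK⟩, -⟩, hg⟩ := (s (lev x)).2 (lev x)
    refine ⟨K, fun y hy => ?_⟩
    have e := lev_of_agree hy
    simp only [e]
    rw [← hg x (hge _), ← hg y (e ▸ hge _)]
    exact hK y x e.le hy
  · obtain ⟨g, ⟨-, hK⟩, hg⟩ := (s (lev x + 1)).2 (lev x + 1)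
    have a1 : lev (up x b) ≤ (s (lev x + 1)).1.1 := by rw [lev_up]; exact hge _
    have a2 : lev x ≤ (s (lev x + 1)).1.1 := (Nat.le_succ _).trans (hge _)
    simp only
    rw [hf _ _ a1, hf _ _ a2, ← hg _ a1, ← hg _ a2]
    exact hK x b (by omega) hu
  · obtain ⟨x, e1, e2, e3, e4, e5⟩ := h3 (s n) c
    rw [← hs] at e2 e4 e5
    refine ⟨x, (hge n).trans e1.le, e3, ?_, fun b => ?_⟩
    · simp only; rw [hf _ _ e2.le, e4]
    · simp only; rw [hf (n + 1) _ (by rw [lev_up]; omega), e5]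

theorem connC (m : ℕ) (c : C → Prop) (h1 : ∀ x b, m ≤ lev x → (c (up x b) ↔ c x))
    (h2 : ∀ x, m ≤ lev x → ∃ K, ∀ y : C, y.1 K = x.1 K → (c y ↔ c x)) {x y : C}
    (hx : m ≤ lev x) (hy : m ≤ lev y) : c x ↔ c y := by
  obtain ⟨K, hK⟩ := h2 x hx
  obtain ⟨L, hL⟩ := h2 y hy
  obtain ⟨k, k1, k2, k3, k4⟩ : ∃ k, K ≤ k ∧ L ≤ k ∧ lev x ≤ k ∧ lev y ≤ k :=
    ⟨K + L + lev x + lev y, by omega, by omega, by omega, by omega⟩
  obtain ⟨v, hv, w, hw, e1, e2, e3⟩ := (G k).chain m (by omega)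
    (fun v => ∃ hv : v ∈ (G (k + 1)).S, c (lf (k + 1) v hv)) (by
      intro v hv b a1 a2
      have a3 := h1 (lf (k + 1) v hv) b (by rw [lev_lf (k + 1) v hv]; exact a1)
      rw [← lf_up (k + 1) v hv b (Nat.lt_succ_of_le a2)] at a3
      exact ⟨fun ⟨_, h⟩ => ⟨hv, a3.1 h⟩, fun ⟨_, h⟩ => ⟨_, a3.2 h⟩⟩)
    (x.2.1 k) (y.2.1 k) (by rwa [lev_eq]) (by rwa [lev_eq]) (by rwa [lev_eq]) (by rwa [lev_eq])
  have f1 := hK (lf (k + 1) v hv) (agree k1 ((lf_pr k v hv).trans e1))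
  have f2 := hL (lf (k + 1) w hw) (agree k2 ((lf_pr k w hw).trans e2))
  rw [← f1, ← f2]
  exact ⟨fun h => (e3.1 ⟨hv, h⟩).2, fun h => (e3.2 ⟨hw, h⟩).2⟩

theorem ex_lev (n : ℕ) : ∃ x : C, lev x = n :=
  ⟨lf 0 (.ray n) ⟨n, rfl⟩, lev_lf _ _ _⟩

theorem ex_two (n : ℕ) : ∃ x y : C, lev x = n ∧ lev y = n ∧ x ≠ y := by
  obtain ⟨x0, h0⟩ := ex_lev n
  have : CInv (fun _ _ => True) (n + 1) (fun _ => false) :=
    ⟨⟨0, fun _ _ _ _ => rfl⟩, fun _ _ _ _ => rfl⟩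
  obtain ⟨g, -, -, h⟩ := this.two x0 0 (by omega)
  obtain ⟨x, e1, e2, -⟩ := h false
  obtain ⟨y, f1, f2, -⟩ := h true
  refine ⟨x, y, (lev_of_agree e1).trans h0, (lev_of_agree f1).trans h0, ?_⟩
  rintro rfl
  rw [e2] at f2; simp at f2

theorem cont_co (k : ℕ) : Continuous fun x : C => x.1 k :=
  (continuous_apply k).comp continuous_subtype_val

theorem cont_up : Continuous fun t : C × Bool => up t.1 t.2 := by
  refine Continuous.subtype_mk (continuous_pi fun k => ?_) _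
  exact (continuous_of_discreteTopology (f := fun e : Ad × Bool => (G k).up e.1 e.2)).comp
    (((cont_co k).comp continuous_fst).prodMk continuous_snd)

theorem cont_lev : Continuous lev :=
  (continuous_of_discreteTopology (f := (G 0).lev)).comp (cont_co 0)

theorem cyl_nhds (x : C) (K : ℕ) : {y : C | y.1 K = x.1 K} ∈ 𝓝 x :=
  ((isOpen_discrete {x.1 K}).preimage (cont_co K)).mem_nhds rfl

theorem nhds_cyl {x : C} {O : Set C} (h : O ∈ 𝓝 x) : ∃ K, ∀ y : C, y.1 K = x.1 K → y ∈ O := by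
  rw [nhds_subtype_eq_comap, mem_comap] at h
  obtain ⟨t, ht, hO⟩ := h
  rw [nhds_pi, Filter.mem_pi] at ht
  obtain ⟨I, hI, u, hu, hsub⟩ := ht
  obtain ⟨K, hK⟩ := hI.bddAbove
  refine ⟨K, fun y hy => hO (hsub fun i hi => ?_)⟩
  rw [agree (hK hi) hy]
  exact mem_of_mem_nhds (hu i)

theorem compact_le (n : ℕ) : IsCompact {x : C | lev x ≤ n} := by
  have hc : IsClosed {x : ℕ → Ad | (∀ k, x k ∈ (G k).S) ∧ ∀ k, (G k).pr (x (k + 1)) = x k} := by
    rw [setOf_and, setOf_forall, setOf_forall]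
    refine (isClosed_iInter fun k => ?_).inter (isClosed_iInter fun k => ?_)
    · exact (isClosed_discrete _).preimage (continuous_apply k)
    · exact isClosed_eq ((continuous_of_discreteTopology (f := (G k).pr)).comp (continuous_apply (k + 1)))
        (continuous_apply k)
  have h1 := hc.isClosedEmbedding_subtypeVal.isCompact_preimage
    (isCompact_univ_pi fun k => ((G k).fin n).isCompact)
  refine h1.of_isClosed_subset ((isClosed_discrete {m | m ≤ n}).preimage cont_lev) ?_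
  intro x hx k _
  exact ⟨x.2.1 k, by rw [lev_eq]; exact hx⟩

end Pool.Agent.H.MP_19acf5_gt
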