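import Pool.Agent.H.MP_19acf5_gt.B
import Pool.Agent.H.MP_19acf5_gt.D

open Set Filter Topology Metric

namespace Pool.Agent.H.MP_19acf5_gt

abbrev I := Σ k : ℕ, ((G k).S : Set Ad)
abbrev T := C × Bool × unitInterval

open Classical in
noncomputable def dl (x : C) (i : I) : ℝ := if x.1 i.1 = i.2.1 then 1 else 0

noncomputable def Ph (t : T) (i : I) : ℝ :=
  (1 - t.2.2.1) * dl t.1 i + t.2.2.1 * dl (up t.1 t.2.1) i

open Classical in
noncomputable def ms (t : T) (y : C) : ℝ :=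
  (1 - t.2.2.1) * (if t.1 = y then 1 else 0) + t.2.2.1 * (if up t.1 t.2.1 = y then 1 else 0)

theorem sep (x y : C) : ∀ᶠ k in atTop, (x.1 k = y.1 k ↔ x = y) := by
  by_cases h : x = y
  · simp [h]
  · obtain ⟨j, hj⟩ : ∃ j, x.1 j ≠ y.1 j := by
      by_contra hc
      push Not at hc
      exact h (Subtype.ext (funext hc))
    filter_upwards [eventually_ge_atTop j] with k hk
    exact ⟨fun e => absurd (agree hk e) hj, fun e => absurd e h⟩

theorem ms_eq {t t' : T} (h : Ph t = Ph t') (y : C) : ms t y = ms t' y := by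
  classical
  obtain ⟨k, h1, h2, h3, h4⟩ := ((sep t.1 y).and ((sep (up t.1 t.2.1) y).and ((sep t'.1 y).and
    (sep (up t'.1 t'.2.1) y)))).exists
  have := congrFun h ⟨k, y.1 k, y.2.1 k⟩
  unfold Ph dl at this
  unfold ms
  rw [← if_congr h1 rfl rfl, ← if_congr h2 rfl rfl, ← if_congr h3 rfl rfl, ← if_congr h4 rfl rfl]
  exact this

theorem up_ne (x : C) (b : Bool) : up x b ≠ x := fun h => by
  have := lev_up x b; rw [h] at this; omega

theorem ms_lo (t : T) : ms t t.1 = 1 - t.2.2.1 := by simp [ms, up_ne]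
theorem ms_hi (t : T) : ms t (up t.1 t.2.1) = t.2.2.1 := by simp [ms, (up_ne _ _).symm]
theorem ms_pos {t : T} {y : C} (h : ms t y ≠ 0) :
    (y = t.1 ∧ t.2.2.1 ≠ 1) ∨ (y = up t.1 t.2.1 ∧ t.2.2.1 ≠ 0) := by
  by_cases h1 : t.1 = y
  · subst h1; rw [ms_lo] at h; exact Or.inl ⟨rfl, fun e => h (by rw [e]; ring)⟩
  · by_cases h2 : up t.1 t.2.1 = y
    · subst h2; rw [ms_hi] at h; exact Or.inr ⟨rfl, h⟩
    · simp [ms, h1, h2] at h

theorem Ph_zero {t : T} {i : I} (h1 : t.1.1 i.1 ≠ i.2.1) (h2 : (up t.1 t.2.1).1 i.1 ≠ i.2.1) :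
    Ph t i = 0 := by simp [Ph, dl, h1, h2]

theorem ne_of_lev {x : C} {i : I} (h : lev x ≠ (G i.1).lev i.2.1) : x.1 i.1 ≠ i.2.1 := fun e =>
  h (by rw [← e, lev_eq])

theorem compT (n : ℕ) : IsCompact {t : T | lev t.1 ≤ n} := by
  have : {t : T | lev t.1 ≤ n} = {x : C | lev x ≤ n} ×ˢ univ := by ext t; simp
  rw [this]; exact (compact_le n).prod isCompact_univ

theorem closT (n : ℕ) : IsClosed {t : T | n ≤ lev t.1} :=
  (isClosed_discrete {m | n ≤ m}).preimage (cont_lev.comp continuous_fst)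

structure Rz (X : Type) [MetricSpace X] where
  p : X
  φ : T → X
  co : I → X → ℝ
  cont : Continuous φ
  sur : ∀ z, z = p ∨ ∃ t, φ t = z
  tend : Tendsto φ (cocompact T) (𝓝 p)
  cco : ∀ i, Continuous (co i)
  cop : ∀ i, co i p = 0
  coφ : ∀ i t, co i (φ t) = Ph t i
  inj : ∀ z z', (∀ i, co i z = co i z') → z = z'

namespace Rz
variable {X : Type} [MetricSpace X] (R : Rz X)

theorem ph_eq {t t' : T} : R.φ t = R.φ t' ↔ Ph t = Ph t' :=
  ⟨fun h => funext fun i => by rw [← R.coφ, h, R.coφ],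
    fun h => R.inj _ _ fun i => by rw [R.coφ, R.coφ, h]⟩

theorem ne (t : T) : R.φ t ≠ R.p := by
  intro h
  have h1 := R.coφ ⟨0, t.1.1 0, t.1.2.1 0⟩ t
  have h2 := R.coφ ⟨0, (up t.1 t.2.1).1 0, (up t.1 t.2.1).2.1 0⟩ t
  rw [h, R.cop] at h1 h2
  have h3 : (up t.1 t.2.1).1 0 ≠ t.1.1 0 := fun e => by
    have := lev_of_agree e; rw [lev_up] at this; omega
  simp only [Ph, dl, if_true, if_neg h3, if_neg h3.symm] at h1 h2
  linarith

theorem top (x : C) (b b' : Bool) : R.φ (x, b, 1) = R.φ (up x b, b', 0) :=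
  R.ph_eq.2 (by funext i; simp [Ph])

theorem bot (x : C) (b b' : Bool) : R.φ (x, b, 0) = R.φ (x, b', 0) :=
  R.ph_eq.2 (by funext i; simp [Ph])

theorem cy {D : Set T} (hD : IsClosed D) : CY R.p (R.φ '' D) := by
  have := (R.tend.comp hD.isClosedEmbedding_subtypeVal.tendsto_cocompact).isCompact_insert_range_of_cocompact
    (R.cont.comp continuous_subtype_val)
  rw [range_comp, Subtype.range_coe] at this
  exact this.isClosed

theorem far {O : Set X} (hO : O ∈ 𝓝 R.p) : ∃ n, ∀ t : T, n ≤ lev t.1 → R.φ t ∈ O := by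
  obtain ⟨K, hK, hs⟩ := mem_cocompact.1 (R.tend hO)
  obtain ⟨n, hn⟩ := ((hK.image (cont_lev.comp continuous_fst)).finite_of_discrete).bddAbove
  refine ⟨n + 1, fun t ht => hs fun h => ?_⟩
  have := hn ⟨t, h, rfl⟩
  simp only [Function.comp] at this
  omega

theorem near (n : ℕ) : (R.φ '' {t | lev t.1 ≤ n})ᶜ ∈ 𝓝 R.p :=
  ((compT n).image R.cont).isClosed.isOpen_compl.mem_nhds fun ⟨t, _, h⟩ => R.ne t h

theorem acc {S : Set X} : Acc R.p S ↔ ∀ n, ∃ t : T, n ≤ lev t.1 ∧ R.φ t ∈ S := by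
  unfold Acc
  rw [mem_closure_iff_nhds]
  constructor
  · intro h n
    obtain ⟨z, hz, hzS, hzp⟩ := h _ (R.near n)
    obtain ⟨t, rfl⟩ := (R.sur z).resolve_left hzp
    exact ⟨t, by by_contra hc; exact hz ⟨t, by simp only [mem_setOf_eq]; omega, rfl⟩, hzS⟩
  · intro h O hO
    obtain ⟨n, hn⟩ := R.far hO
    obtain ⟨t, ht, htS⟩ := h n
    exact ⟨_, hn t ht, htS, R.ne t⟩

theorem box {W : Set X} (hW : IsOpen W) {t : T} (ht : R.φ t ∈ W) :
    ∃ κ, ∃ σ τ : ℝ, 0 ≤ σ ∧ σ < τ ∧ τ ≤ 1 ∧ ∀ x : C, x.1 κ = t.1.1 κ →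
      (∀ s : unitInterval, σ < s.1 → s.1 < τ → R.φ (x, t.2.1, s) ∈ W) ∧ R.φ (x, t.2.1, t.2.2) ∈ W := by
  have h1 : (fun e : C × unitInterval => R.φ (e.1, t.2.1, e.2)) ⁻¹' W ∈ 𝓝 (t.1, t.2.2) :=
    (hW.preimage (R.cont.comp (by fun_prop))).mem_nhds ht
  obtain ⟨u, hu, v, hv, huv⟩ := mem_nhds_prod_iff.1 h1
  obtain ⟨κ, hκ⟩ := nhds_cyl hu
  obtain ⟨ε, hε, hb⟩ := Metric.mem_nhds_iff.1 hv
  have s0 := t.2.2.2.1
  have s1 := t.2.2.2.2
  refine ⟨κ, max 0 (t.2.2.1 - ε), min 1 (t.2.2.1 + ε), le_max_left _ _, ?_, min_le_left _ _,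
    fun x hx => ⟨fun s a b => huv (mk_mem_prod (hκ x hx) (hb ?_)),
      huv (mk_mem_prod (hκ x hx) (mem_of_mem_nhds hv))⟩⟩
  · rw [max_lt_iff, lt_min_iff, lt_min_iff]
    refine ⟨⟨one_pos, by linarith⟩, by linarith, by linarith⟩
  · rw [max_lt_iff] at a
    rw [lt_min_iff] at b
    rw [mem_ball, Subtype.dist_eq, Real.dist_eq, abs_lt]
    constructor <;> linarith [a.2, b.2]

theorem cuts (W V : Set X) (hW : IsOpen W) (hV : IsOpen V) (aW : Acc R.p W) (aV : Acc R.p V) :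
    ∃ Z1 Z2 : Set X, CY R.p Z1 ∧ CY R.p Z2 ∧ Disjoint Z1 Z2 ∧ (∀ x, x ≠ R.p → x ∈ Z1 ∪ Z2 ∪ W) ∧
      Acc R.p (V ∩ Z1) ∧ Acc R.p (V ∩ Z2) := by
  classical
  have h1 : ∀ n : ℕ, ∃ (σ τ : ℝ) (U : C → Bool → Prop), 0 ≤ σ ∧ σ < τ ∧ τ ≤ 1 ∧
      (∀ x b, U x b → ∀ s : unitInterval, σ < s.1 → s.1 < τ → R.φ (x, b, s) ∈ W) ∧
      ((∃ t : T, lev t.1 = n ∧ R.φ t ∈ W) → ∃ (x0 : C) (b0 : Bool) (κ : ℕ), lev x0 = n ∧
        ∀ x : C, x.1 κ = x0.1 κ → U x b0) := by
    intro n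
    by_cases h : ∃ t : T, lev t.1 = n ∧ R.φ t ∈ W
    · obtain ⟨t, ht, htW⟩ := h
      obtain ⟨κ, σ, τ, a1, a2, a3, a4⟩ := R.box hW htW
      refine ⟨σ, τ, fun x b => x.1 κ = t.1.1 κ ∧ b = t.2.1, a1, a2, a3, ?_,
        fun _ => ⟨t.1, t.2.1, κ, ht, fun x hx => ⟨hx, rfl⟩⟩⟩
      rintro x b ⟨hx, rfl⟩
      exact (a4 x hx).1
    · exact ⟨0, 1, fun _ _ => False, le_rfl, one_pos, le_rfl, fun _ _ h => h.elim, fun h' => absurd h' h⟩
  choose σ τ U a1 a2 a3 a4 a5 using h1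
  obtain ⟨f, f1, f2, f3⟩ := cutC (fun x b => U (lev x) x b)
    (fun x => ∃ b s, R.φ (x, b, s) ∈ V) (by
      intro n
      obtain ⟨t, ht, htW⟩ := R.acc.1 aW n
      obtain ⟨x0, b0, κ, e1, e2⟩ := a5 _ ⟨t, rfl, htW⟩
      exact ⟨x0, b0, κ, e1 ▸ ht, fun x hx => by rw [lev_of_agree hx, e1]; exact e2 x hx⟩) (by
      intro n
      obtain ⟨t, ht, htV⟩ := R.acc.1 aV n
      obtain ⟨κ, _, _, -, -, -, a4⟩ := R.box hV htV
      exact ⟨t.1, κ, ht, fun x hx => ⟨_, _, (a4 x hx).2⟩⟩)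
  have fc : Continuous f := by
    refine (IsLocallyConstant.iff_eventually_eq f).2 (fun x => ?_) |>.continuous
    obtain ⟨K, hK⟩ := f1 x
    filter_upwards [cyl_nhds x K] with y hy using hK y hy
  let D : Bool → Set T := fun c => {t | (f t.1 = c ∧ f (up t.1 t.2.1) = c) ∨
    (f t.1 = c ∧ t.2.2.1 ≤ σ (lev t.1)) ∨ (f (up t.1 t.2.1) = c ∧ τ (lev t.1) ≤ t.2.2.1)}
  have hD : ∀ c, IsClosed (D c) := by
    intro c
    have c1 : IsClosed {t : T | f t.1 = c} := isClosed_eq (fc.comp continuous_fst) continuous_const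
    have c2 : IsClosed {t : T | f (up t.1 t.2.1) = c} := isClosed_eq (fc.comp (cont_up.comp
      (continuous_fst.prodMk (continuous_fst.comp continuous_snd)))) continuous_const
    have c3 : Continuous fun t : T => t.2.2.1 := by fun_prop
    exact (c1.inter c2).union ((c1.inter (isClosed_le c3 ((continuous_of_discreteTopology (f := σ)).comp
      (cont_lev.comp continuous_fst)))).union (c2.inter (isClosed_le
      ((continuous_of_discreteTopology (f := τ)).comp (cont_lev.comp continuous_fst)) c3)))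
  have hend : ∀ c, ∀ t ∈ D c, (t.2.2.1 = 0 → f t.1 = c) ∧ (t.2.2.1 = 1 → f (up t.1 t.2.1) = c) := by
    intro c t ht
    have b1 := a1 (lev t.1); have b2 := a2 (lev t.1); have b3 := a3 (lev t.1)
    rcases ht with h | h | h
    · exact ⟨fun _ => h.1, fun _ => h.2⟩
    · exact ⟨fun _ => h.1, fun e => absurd h.2 (by linarith)⟩
    · exact ⟨fun e => absurd h.2 (by linarith), fun _ => h.1⟩
  have hacc : ∀ c, Acc R.p (V ∩ R.φ '' D c) := fun c => R.acc.2 fun n => by
    obtain ⟨x, e1, ⟨b, s, e2⟩, e3, e4⟩ := f3 c n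
    exact ⟨(x, b, s), e1, e2, _, Or.inl ⟨e3, e4 b⟩, rfl⟩
  refine ⟨_, _, R.cy (hD false), R.cy (hD true), ?_, ?_, hacc _, hacc _⟩
  · rw [Set.disjoint_left]
    rintro _ ⟨t, ht, rfl⟩ ⟨t', ht', h⟩
    have hm := ms_eq (R.ph_eq.1 h)
    have hs : ∀ {t t' : T} {c c' : Bool}, t ∈ D c → t' ∈ D c' → (∀ y, ms t' y = ms t y) →
        (t.2.2.1 = 0 ∨ t.2.2.1 = 1) → c = c' := by
      intro t t' c c' ht ht' hm h01
      obtain ⟨y, hy, hy1⟩ : ∃ y, f y = c ∧ ms t y = 1 := by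
        rcases h01 with h | h
        · exact ⟨_, (hend c t ht).1 h, by rw [ms_lo, h]; ring⟩
        · exact ⟨_, (hend c t ht).2 h, by rw [ms_hi, h]⟩
      rw [← hm] at hy1
      rcases ms_pos (t := t') (y := y) (by rw [hy1]; exact one_ne_zero) with ⟨rfl, -⟩ | ⟨rfl, -⟩
      · rw [ms_lo] at hy1
        rw [← hy, (hend c' t' ht').1 (by linarith)]
      · rw [ms_hi] at hy1
        rw [← hy, (hend c' t' ht').2 hy1]
    by_cases h01 : t.2.2.1 = 0 ∨ t.2.2.1 = 1
    · exact absurd (hs ht ht' hm h01) (by simp)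
    · push Not at h01
      have e1 := ms_pos (t := t') (y := t.1) (by rw [hm, ms_lo]; exact sub_ne_zero.2 h01.2.symm)
      have e2 := ms_pos (t := t') (y := up t.1 t.2.1) (by rw [hm, ms_hi]; exact h01.1)
      have l1 := lev_up t.1 t.2.1
      have l2 := lev_up t'.1 t'.2.1
      have e3 : t.1 = t'.1 := by
        rcases e1 with ⟨e, -⟩ | ⟨e, -⟩
        · exact e
        · rcases e2 with ⟨e', -⟩ | ⟨e', -⟩
          · rw [e'] at l1; rw [← e] at l2; omega
          · rw [e', ← e] at l1; omega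
      have e4 : up t.1 t.2.1 = up t'.1 t'.2.1 := by
        rcases e2 with ⟨e', -⟩ | ⟨e', -⟩
        · rw [e', e3] at l1; omega
        · exact e'
      have e5 : t'.2.2.1 = t.2.2.1 := by rw [← ms_hi, ← ms_hi, ← e4, hm]
      have b2 := a2 (lev t.1)
      simp only [D, mem_setOf_eq] at ht ht'
      rw [← e4, ← e3, e5] at ht'
      rcases ht with h | h | h <;> rcases ht' with h' | h' | h'
      all_goals first
        | exact absurd (h.1.symm.trans h'.1) Bool.false_ne_true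
        | exact absurd (h.2.symm.trans h'.1) Bool.false_ne_true
        | exact absurd (h.1.symm.trans h'.2) Bool.false_ne_true
        | linarith [h.2, h'.2]
  · intro z hz
    obtain ⟨t, rfl⟩ := (R.sur z).resolve_left hz
    by_cases h : ∃ c, t ∈ D c
    · obtain ⟨c, hc⟩ := h
      cases c
      · exact Or.inl (Or.inl ⟨t, hc, rfl⟩)
      · exact Or.inl (Or.inr ⟨t, hc, rfl⟩)
    · refine Or.inr (a4 (lev t.1) t.1 t.2.1 ?_ t.2.2 ?_ ?_)
      · by_contra hc
        exact h ⟨_, Or.inl ⟨rfl, f2 _ _ hc⟩⟩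
      · by_contra hc
        exact h ⟨_, Or.inr (Or.inl ⟨rfl, not_lt.1 hc⟩)⟩
      · by_contra hc
        exact h ⟨_, Or.inr (Or.inr ⟨rfl, not_lt.1 hc⟩)⟩

theorem edge_conn (x : C) (b : Bool) : IsConnected (range fun s : unitInterval => R.φ (x, b, s)) :=
  isConnected_range (R.cont.comp (by fun_prop))

theorem nosplit : ¬ Split R.p (univ : Set X) := by
  rintro ⟨ε, hε, Z1, Z2, h1, h2, hd, hu, a1, a2⟩
  obtain ⟨m, hm⟩ := R.far (closedBall_mem_nhds R.p hε)
  have hin : ∀ t : T, m ≤ lev t.1 → R.φ t ∈ Z1 ∪ Z2 := fun t ht =>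
    hu.symm.subset ⟨⟨trivial, hm t ht⟩, R.ne t⟩
  have hloc : ∀ t : T, m ≤ lev t.1 → ∀ᶠ u in 𝓝 t, (R.φ u ∈ Z1 ↔ R.φ t ∈ Z1) := by
    intro t ht
    have e0 : ∀ᶠ u : T in 𝓝 t, m ≤ lev u.1 :=
      ((isOpen_discrete {k | m ≤ k}).preimage (cont_lev.comp continuous_fst)).mem_nhds ht
    by_cases h : R.φ t ∈ Z1
    · have : R.φ t ∉ insert R.p Z2 := fun h' => h'.elim (R.ne t) (Set.disjoint_left.1 hd h)
      filter_upwards [e0, (IsClosed.isOpen_compl (self := h2.preimage R.cont)).mem_nhds this] with u a b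
      exact ⟨fun _ => h, fun _ => (hin u a).resolve_right fun c => b (Or.inr c)⟩
    · have : R.φ t ∉ insert R.p Z1 := fun h' => h'.elim (R.ne t) h
      filter_upwards [(IsClosed.isOpen_compl (self := h1.preimage R.cont)).mem_nhds this] with u b
      exact ⟨fun c => absurd (Or.inr c) b, fun c => absurd c h⟩
  have hedge : ∀ x b (s : unitInterval), m ≤ lev x → (R.φ (x, b, s) ∈ Z1 ↔ R.φ (x, false, 0) ∈ Z1) := by
    intro x b s hx
    rw [R.bot x false b]
    have : IsLocallyConstant fun s : unitInterval => R.φ (x, b, s) ∈ Z1 := by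
      refine (IsLocallyConstant.iff_eventually_eq _).2 fun s => ?_
      have hc : Continuous fun s : unitInterval => ((x, b, s) : T) := by fun_prop
      filter_upwards [hc.continuousAt.eventually (hloc (x, b, s) hx)] with u hu using propext hu
    exact iff_of_eq (this.apply_eq_of_preconnectedSpace s 0)
  have key : ∀ t u : T, m ≤ lev t.1 → m ≤ lev u.1 → (R.φ t ∈ Z1 ↔ R.φ u ∈ Z1) := by
    intro t u ht hu
    rw [hedge t.1 t.2.1 t.2.2 ht, hedge u.1 u.2.1 u.2.2 hu]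
    refine connC m (fun x => R.φ (x, false, 0) ∈ Z1) ?_ ?_ ht hu
    · intro x b hx
      rw [← R.top x b false, hedge x b 1 hx]
    · intro x hx
      have hc : Continuous fun x : C => ((x, false, 0) : T) := by fun_prop
      exact nhds_cyl (hc.continuousAt.eventually (hloc (x, false, 0) hx))
  obtain ⟨t, ht, ht'⟩ := R.acc.1 a1 m
  obtain ⟨u, hu, hu'⟩ := R.acc.1 a2 m
  exact Set.disjoint_left.1 hd ((key t u ht hu).1 ht') hu'

theorem ray (t : T) : ∃ ρ : Set X, IsClosed ρ ∧ IsConnected ρ ∧ R.φ t ∈ ρ ∧ R.p ∈ ρ ∧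
    ρ ⊆ insert R.p (R.φ '' {u | lev t.1 ≤ lev u.1}) ∧ ∀ n, ∃ r : C, ∀ i : I,
      (G i.1).lev i.2.1 = n → r.1 i.1 ≠ i.2.1 → ∀ z ∈ ρ, R.co i z = 0 := by
  let β : ℕ → Bool := fun j => if j = 0 then t.2.1 else false
  let r : ℕ → C := fun j => Nat.rec t.1 (fun j x => up x (β j)) j
  have hr : ∀ j, r (j + 1) = up (r j) (β j) := fun _ => rfl
  have hl : ∀ j, lev (r j) = lev t.1 + j := by
    intro j
    induction j with
    | zero => rfl
    | succ j ih => rw [hr, lev_up, ih]; rfl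
  let E : ℕ → Set X := fun j => range fun s : unitInterval => R.φ (r j, β j, s)
  have hc : IsConnected (⋃ j, E j) := IsConnected.iUnion_of_chain (fun j => R.edge_conn _ _)
    (fun j => ⟨_, ⟨1, rfl⟩, ⟨0, (R.top (r j) (β j) (β (j + 1))).symm⟩⟩)
  refine ⟨closure (⋃ j, E j), isClosed_closure, hc.closure,
    subset_closure (mem_iUnion.2 ⟨0, t.2.2, rfl⟩), ?_, ?_, fun n => ⟨r (n - lev t.1), ?_⟩⟩
  · have : Acc R.p (⋃ j, E j) := R.acc.2 fun n =>
      ⟨(r n, β n, 0), by rw [hl]; omega, mem_iUnion.2 ⟨n, 0, rfl⟩⟩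
    exact closure_mono diff_subset this
  · refine closure_minimal ?_ (R.cy (closT _))
    intro z hz
    obtain ⟨j, s, rfl⟩ := mem_iUnion.1 hz
    exact Or.inr ⟨_, by show lev t.1 ≤ lev (r j); rw [hl]; omega, rfl⟩
  · intro i hi hne
    refine closure_minimal (t := {z | R.co i z = 0}) ?_ (isClosed_eq (R.cco i) continuous_const)
    intro z hz
    obtain ⟨j, s, rfl⟩ := mem_iUnion.1 hz
    have : ∀ j, (r j).1 i.1 ≠ i.2.1 := by
      intro j e
      have h := lev_eq (r j) i.1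
      rw [e, hi, hl] at h
      apply hne
      rwa [show n - lev t.1 = j by omega]
    show R.co i _ = 0
    rw [R.coφ]
    exact Ph_zero (this j) (this (j + 1))

include R in
theorem conn : ConnectedSpace X := by
  rw [connectedSpace_iff_univ]
  refine ⟨⟨R.p, trivial⟩, isPreconnected_of_forall R.p fun z _ => ?_⟩
  rcases R.sur z with rfl | ⟨t, rfl⟩
  · exact ⟨{R.p}, subset_univ _, rfl, rfl, isPreconnected_singleton⟩
  · obtain ⟨ρ, -, h2, h3, h4, -⟩ := R.ray t
    exact ⟨ρ, subset_univ _, h4, h3, h2.isPreconnected⟩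

variable [CompactSpace X]

theorem rem_conn : IsConnected (rem R.p) := by
  have h1 := conn_of_not_split (CY_of_closed isClosed_univ) R.nosplit
  have h2 := acc_iff.1 ((R.acc (S := univ)).2 fun n => by
    obtain ⟨x, hx⟩ := ex_lev n
    exact ⟨(x, false, 0), hx.ge, trivial⟩)
  rw [cl_univ, univ_inter] at h1 h2
  exact ⟨h2, h1⟩

theorem notQ2 (M : Set X) (q : X) (K : Set X) (hM : IsCompact M) (hp : R.p ∉ M) (hK : IsCompact K)
    (hKc : IsConnected K) (hq : q ∈ K) (hpK : R.p ∈ K)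
    (hirr : ∀ L, IsCompact L → IsConnected L → L ⊆ K → q ∈ L → R.p ∈ L → L = K) :
    M ∪ K ≠ univ := by
  intro hu
  obtain ⟨b0, hb0⟩ := R.far (hM.isClosed.isOpen_compl.mem_nhds hp)
  have hin : ∀ t : T, b0 ≤ lev t.1 → R.φ t ∈ K := fun t ht =>
    (hu.symm.subset (mem_univ (R.φ t))).resolve_left (hb0 t ht)
  rcases R.sur q with rfl | ⟨t0, rfl⟩
  · obtain ⟨x, hx⟩ := ex_lev b0
    have := hin (x, false, 0) hx.ge
    rw [← hirr {R.p} isCompact_singleton isConnected_singleton (singleton_subset_iff.2 hpK) rfl rfl] at this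
    exact R.ne _ this
  set b := b0 + lev t0.1 with hb
  let L := K ∩ R.φ '' {t | lev t.1 ≤ b}
  have hL : IsCompact L := hK.inter ((compT b).image R.cont)
  let Hi := insert R.p (R.φ '' {t | b + 1 ≤ lev t.1})
  have hHi : IsClosed Hi := R.cy (closT _)
  have hqL : R.φ t0 ∈ L := ⟨hq, t0, by simp only [mem_setOf_eq]; omega, rfl⟩
  have hHK : Hi ⊆ K := by
    rintro z (rfl | ⟨t, ht, rfl⟩)
    · exact hpK
    · exact hin t (by simp only [mem_setOf_eq] at ht; omega)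
  obtain ⟨z, ⟨hz, hzL⟩, hzQ⟩ : ∃ z ∈ Hi ∩ L, z ∈ connectedComponentIn L (R.φ t0) := by
    by_contra hc
    push Not at hc
    obtain ⟨S1, S2, c1, c2, hd, hun, m1, m2⟩ := cutwire hL (isClosed_singleton (x := R.φ t0)) hHi
      (by rintro a ⟨rfl, -⟩ z hz; exact hc z hz)
    have d2 : Disjoint S1 (S2 ∪ Hi) := by
      rw [Set.disjoint_left]
      rintro z hz (h | h)
      · exact Set.disjoint_left.1 hd hz h
      · exact Set.disjoint_left.1 hd hz (m2 ⟨h, hun ▸ Or.inl hz⟩)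
    rcases sub_of_closed hKc.isPreconnected c1 (c2.union hHi) d2 (by
      intro z hz
      rcases R.sur z with rfl | ⟨t, rfl⟩
      · exact Or.inr (Or.inr (Or.inl rfl))
      · by_cases h : lev t.1 ≤ b
        · have : R.φ t ∈ S1 ∪ S2 := hun ▸ ⟨hz, t, h, rfl⟩
          exact this.imp id Or.inl
        · exact Or.inr (Or.inr (Or.inr ⟨t, by simp only [mem_setOf_eq]; omega, rfl⟩))) with h | h
    · exact Set.disjoint_left.1 d2 (h hpK) (Or.inr (Or.inl rfl))
    · exact Set.disjoint_left.1 d2 (m1 ⟨rfl, hqL⟩) (h hq)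
  rcases hz with rfl | ⟨t, ht, rfl⟩
  · obtain ⟨t, -, ht⟩ := hzL.2
    exact R.ne t ht
  obtain ⟨ρ, r1, r2, r3, r4, r5, r6⟩ := R.ray t
  have hQL : closure (connectedComponentIn L (R.φ t0)) ⊆ L :=
    closure_minimal (connectedComponentIn_subset _ _) hL.isClosed
  have hρK : ρ ⊆ K := r5.trans (subset_trans (insert_subset_insert (image_mono fun u hu =>
    le_trans (show b + 1 ≤ lev t.1 from ht) hu)) hHK)
  have he := hirr (closure (connectedComponentIn L (R.φ t0)) ∪ ρ) (isClosed_closure.union r1).isCompact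
    (IsConnected.union ⟨_, subset_closure hzQ, r3⟩
      (isConnected_connectedComponentIn_iff.2 hqL).closure r2)
    (union_subset (hQL.trans inter_subset_left) hρK)
    (Or.inl (subset_closure (mem_connectedComponentIn hqL))) (Or.inr r4)
  obtain ⟨r, hr⟩ := r6 (b + 2)
  obtain ⟨y, hy, hyr⟩ : ∃ y : C, lev y = b + 2 ∧ r ≠ y := by
    obtain ⟨x, y, hx, hy, hxy⟩ := ex_two (b + 2)
    by_cases h : r = x
    · exact ⟨y, hy, h ▸ hxy⟩
    · exact ⟨x, hx, h⟩
  obtain ⟨k, hk⟩ := (sep r y).exists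
  let i : I := ⟨k, y.1 k, y.2.1 k⟩
  have hi : (G i.1).lev i.2.1 = b + 2 := (lev_eq y k).trans hy
  have h1 : R.co i (R.φ (y, false, 0)) = 1 := by rw [R.coφ]; simp [Ph, dl, i]
  have h0 : R.co i (R.φ (y, false, 0)) = 0 := by
    have := hin (y, false, 0) (by simp only; omega)
    rw [← he] at this
    rcases this with h | h
    · obtain ⟨u, hu, e⟩ := (hQL h).2
      rw [← e, R.coφ]
      simp only [mem_setOf_eq] at hu
      exact Ph_zero (ne_of_lev (by omega)) (ne_of_lev (by rw [lev_up]; omega))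
    · exact hr i hi (fun e => hyr (hk.1 e)) _ h
  rw [h0] at h1
  exact zero_ne_one h1

end Rz

instance : Countable I := by
  have : ∀ k, Countable ((G k).S : Set Ad) := fun k => by
    refine Set.Countable.to_subtype ((countable_iUnion fun n => ((G k).fin n).countable).mono ?_)
    exact fun v hv => mem_iUnion.2 ⟨_, hv, le_rfl⟩
  infer_instance

theorem Ph_cont : Continuous Ph := by
  classical
  have hd : ∀ i, Continuous fun x => dl x i := fun i =>
    (continuous_of_discreteTopology (f := fun v : Ad => if v = i.2.1 then (1 : ℝ) else 0)).comp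
      (cont_co i.1)
  refine continuous_pi fun i => ?_
  have h1 := (hd i).comp (continuous_fst (X := C) (Y := Bool × unitInterval))
  have h2 := (hd i).comp (cont_up.comp ((continuous_fst (X := C) (Y := Bool × unitInterval)).prodMk
    (continuous_fst.comp continuous_snd)))
  have c3 : Continuous fun t : T => t.2.2.1 := by fun_prop
  exact ((continuous_const.sub c3).mul h1).add (c3.mul h2)

theorem Ph_tend : Tendsto Ph (cocompact T) (𝓝 0) := by
  rw [tendsto_pi_nhds]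
  intro i
  refine tendsto_const_nhds.congr' ?_
  filter_upwards [(compT ((G i.1).lev i.2.1)).compl_mem_cocompact] with t ht
  simp only [mem_compl_iff, mem_setOf_eq] at ht
  exact (Ph_zero (ne_of_lev (by omega)) (ne_of_lev (by rw [lev_up]; omega))).symm

theorem exRz : ∃ (X : Type) (_ : MetricSpace X), CompactSpace X ∧ Nonempty (Rz X) := by
  let XX : Set (I → ℝ) := insert 0 (range Ph)
  have hc : CompactSpace XX :=
    isCompact_iff_compactSpace.1 (Ph_tend.isCompact_insert_range_of_cocompact Ph_cont)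
  refine ⟨XX, TopologicalSpace.metrizableSpaceMetric XX, hc, ⟨?_⟩⟩
  letI : MetricSpace XX := TopologicalSpace.metrizableSpaceMetric XX
  exact
    { p := ⟨0, Or.inl rfl⟩
      φ := fun t => ⟨Ph t, Or.inr ⟨t, rfl⟩⟩
      co := fun i z => z.1 i
      cont := Ph_cont.subtype_mk _
      sur := by
        rintro ⟨z, rfl | ⟨t, rfl⟩⟩
        · exact Or.inl rfl
        · exact Or.inr ⟨t, rfl⟩
      tend := tendsto_subtype_rng.2 Ph_tend
      cco := fun i => (continuous_apply i).comp continuous_subtype_val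
      cop := fun _ => rfl
      coφ := fun _ _ => rfl
      inj := fun z z' h => Subtype.ext (funext h) }

end Pool.Agent.H.MP_19acf5_gt
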